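import Mathlib

/-!
# Boolean dimension of an antichain plus `n` points: definitions
-/

open Finset

namespace Pool.Agent.BoolDim

/-- The comparison vector `(q_1(x,y), ..., q_d(x,y))` of the pair `(x,y)`:
`q_i(x,y)` is true iff `x < y` in `L_i`. -/
noncomputable def cmpVec {X : Type} {d : ℕ} (L : Fin d → LinearOrder X) (x y : X) :
    Fin d → Bool :=
  fun i => @decide ((L i).lt x y) (Classical.propDecidable _)

/-- The poset `X` has a Boolean realizer of size `d` (Nesetril and Pudlak). -/
def HasBoolRealizer (X : Type) [PartialOrder X] (d : ℕ) : Prop :=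
  ∃ (L : Fin d → LinearOrder X) (τ : (Fin d → Bool) → Bool),
    ∀ x y : X, x ≠ y → (x < y ↔ τ (cmpVec L x y) = true)

/-- Boolean dimension: the least `d ≥ 1` such that `X` has a Boolean realizer of size `d`. -/
noncomputable def bdim (X : Type) [PartialOrder X] : ℕ :=
  sInf {d : ℕ | 1 ≤ d ∧ HasBoolRealizer X d}

/-- `X` is an antichain plus `n` points. -/
def IsAntichainPlus (X : Type) [PartialOrder X] (n : ℕ) : Prop :=
  ∃ A B : Set X, A ∪ B = Set.univ ∧ A ∩ B = ∅ ∧ IsAntichain (· ≤ ·) A ∧ B.ncard = n

/-- The set of Boolean dimensions of finite posets that are an antichain plus `n` points. -/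
def bdims (n : ℕ) : Set ℕ :=
  {d : ℕ | ∃ (X : Type) (_ : Finite X) (_ : PartialOrder X), IsAntichainPlus X n ∧ bdim X = d}

/-- `f(n)`: the maximum Boolean dimension of an antichain plus `n` points. -/
noncomputable def f (n : ℕ) : ℕ := sSup (bdims n)

/-! ## Words given by positions in permutations -/

/-- Parity word: `σ i b` is the rank of `b` in the `i`-th order, `j i` is the number of elements
below the new point in the `i`-th order. -/
def wd {n d : ℕ} (σ : Fin d → Equiv.Perm (Fin n)) (j : Fin d → Fin (n + 1)) : Fin n → ZMod 2 :=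
  fun b => ∑ i, if (σ i b).val < (j i).val then 1 else 0

/-- General word, decoded by arbitrary functions `g b` of the comparison bits. -/
def gw {n d : ℕ} (σ : Fin d → Equiv.Perm (Fin n)) (g : Fin n → (Fin d → Bool) → Bool)
    (j : Fin d → Fin (n + 1)) : Fin n → Bool :=
  fun b => g b (fun i => decide ((σ i b).val < (j i).val))

/-- Alternating sum of a subset `K` of `{0, ..., n-1}`. -/
def Zs (n : ℕ) (K : Finset ℕ) : ℤ := ∑ j ∈ range (n + 1), (-1) ^ (K.filter (· < j)).card

/-- The same for the image of `K` under a permutation. -/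
def Zp {n : ℕ} (σ : Equiv.Perm (Fin n)) (K : Finset (Fin n)) : ℤ :=
  ∑ j : Fin (n + 1), (-1) ^ (K.filter (fun b => (σ b).val < j.val)).card

/-- The base-two logarithm of `n+1`. -/
noncomputable def Lg (n : ℕ) : ℝ := Real.logb 2 (n + 1)

/-- Bound for the normalised second moment. -/
noncomputable def Mb (n d : ℕ) : ℝ :=
  ∑ k ∈ range (n + 1), (n.choose k : ℝ) * (((n : ℝ) + 1 - k) / (((n : ℝ) + 1) * (k + 1))) ^ d

/-- The poset on all subsets of `Fin n` (as an antichain) and `n` points: `S < b` iff `b ∈ S`. -/
inductive Full (n : ℕ) : Type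
  | set (S : Finset (Fin n)) : Full n
  | pt (b : Fin n) : Full n

namespace Full

/-- The order relation. -/
def le {n : ℕ} : Full n → Full n → Prop
  | set S, set T => S = T
  | set S, pt b => b ∈ S
  | pt _, set _ => False
  | pt b, pt c => b = c

instance (n : ℕ) : PartialOrder (Full n) where
  le := le
  le_refl x := by cases x <;> simp [le]
  le_trans x y z hxy hyz := by
    cases x <;> cases y <;> cases z <;> simp_all [le]
  le_antisymm x y hxy hyx := by
    cases x <;> cases y <;> simp_all [le]

end Full

end Pool.Agent.BoolDim
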