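import Pool.Agent.BoolDim.Main

/-!
# Boolean dimension of an antichain plus `n` points: bounds for every `n ≥ 1`
-/

open Finset

namespace Pool.Agent.BoolDim

/-- With at least two orders the word map is never injective. -/
theorem gw_not_injective (n d : ℕ) (hn : 1 ≤ n) (hd : 2 ≤ d) (σ : Fin d → Equiv.Perm (Fin n))
    (g : Fin n → (Fin d → Bool) → Bool) : ¬ Function.Injective (gw σ g) := by
  classical
  intro hinj
  set b : Fin n := ⟨0, hn⟩ with hb
  set i₀ : Fin d := ⟨0, by omega⟩ with hi₀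
  set i₁ : Fin d := ⟨1, by omega⟩ with hi₁
  have hne : i₀ ≠ i₁ := by simp [hi₀, hi₁]
  -- positions just before or just after `b` in the orders `i₀`, `i₁`, and `0` elsewhere
  set P : Bool → Bool → Fin d → Fin (n + 1) := fun s t i =>
    if i = i₀ then ⟨(σ i b).val + (if s then 1 else 0), by
      have := (σ i b).isLt; split_ifs <;> omega⟩
    else if i = i₁ then ⟨(σ i b).val + (if t then 1 else 0), by
      have := (σ i b).isLt; split_ifs <;> omega⟩
    else 0 with hP
  have hPinj : ∀ s t s' t', P s t = P s' t' → s = s' ∧ t = t' := by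
    intro s t s' t' h
    have h0 := congrFun h i₀
    have h1 := congrFun h i₁
    simp only [hP, if_true, if_neg hne.symm, Fin.mk.injEq] at h0 h1
    constructor
    · cases s <;> cases s' <;> simp at h0 ⊢
    · cases t <;> cases t' <;> simp at h1 ⊢
  have hagree : ∀ s t s' t' (c : Fin n), c ≠ b → gw σ g (P s t) c = gw σ g (P s' t') c := by
    intro s t s' t' c hc
    unfold gw
    congr 1
    funext i
    rw [decide_eq_decide]
    have hci : (σ i c).val ≠ (σ i b).val := by
      intro h; exact hc ((σ i).injective (Fin.ext h))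
    simp only [hP]
    by_cases h0 : i = i₀
    · simp only [if_pos h0]
      cases s <;> cases s' <;> simp <;> omega
    · by_cases h1 : i = i₁
      · simp only [if_neg h0, if_pos h1]
        cases t <;> cases t' <;> simp <;> omega
      · simp only [if_neg h0, if_neg h1]
  -- three of the four words cannot differ at `b`
  have hval : ∀ s t s' t', gw σ g (P s t) b = gw σ g (P s' t') b → P s t = P s' t' := by
    intro s t s' t' h
    apply hinj
    funext c
    by_cases hc : c = b
    · rw [hc]; exact h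
    · exact hagree s t s' t' c hc
  by_cases h12 : gw σ g (P false false) b = gw σ g (P false true) b
  · exact absurd (hPinj _ _ _ _ (hval _ _ _ _ h12)).2 (by simp)
  by_cases h13 : gw σ g (P false false) b = gw σ g (P true false) b
  · exact absurd (hPinj _ _ _ _ (hval _ _ _ _ h13)).1 (by simp)
  have h23 : gw σ g (P false true) b = gw σ g (P true false) b := by
    revert h12 h13
    cases gw σ g (P false false) b <;> cases gw σ g (P false true) b <;>
      cases gw σ g (P true false) b <;> simp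
  exact absurd (hPinj _ _ _ _ (hval _ _ _ _ h23)).1 (by simp)

/-- No Boolean realizer of size one for the full poset. -/
theorem Full.no_one (n : ℕ) (hn : 1 ≤ n) : ¬ HasBoolRealizer (Full n) 1 := by
  rintro ⟨L, τ, hτ⟩
  set b : Fin n := ⟨0, hn⟩
  have h1 := hτ (Full.set {b}) (Full.pt b) (by simp)
  have h2 := hτ (Full.set ∅) (Full.set {b}) (by simp)
  have h3 := hτ (Full.set {b}) (Full.set ∅) (by simp)
  rw [Full.lt_iff] at h1 h2 h3
  have e1 : τ (cmpVec L (Full.set {b}) (Full.pt b)) = true := h1.mp ⟨{b}, b, rfl, rfl, by simp⟩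
  have e2 : ¬ τ (cmpVec L (Full.set ∅) (Full.set {b})) = true := by
    intro h; obtain ⟨S, c, -, h', -⟩ := h2.mpr h; simp at h'
  have e3 : ¬ τ (cmpVec L (Full.set {b}) (Full.set ∅)) = true := by
    intro h; obtain ⟨S, c, -, h', -⟩ := h3.mpr h; simp at h'
  -- the two vectors of the incomparable pair are the two vectors of length one
  have hor : cmpVec L (Full.set {b}) (Full.pt b) = cmpVec L (Full.set ∅) (Full.set {b}) ∨
      cmpVec L (Full.set {b}) (Full.pt b) = cmpVec L (Full.set {b}) (Full.set ∅) := by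
    have hcase : (L 0).lt (Full.set ∅) (Full.set {b}) ∨ (L 0).lt (Full.set {b}) (Full.set ∅) :=
      lo_total (L 0) _ _ (by simp)
    have hnot : ¬ ((L 0).lt (Full.set ∅) (Full.set {b}) ∧ (L 0).lt (Full.set {b}) (Full.set ∅)) := by
      rintro ⟨h, h'⟩; exact lo_irrefl (L 0) _ (lo_trans (L 0) _ _ _ h h')
    by_cases hq : (L 0).lt (Full.set {b}) (Full.pt b)
    · rcases hcase with h | h
      · left; funext i; obtain rfl : i = 0 := Subsingleton.elim _ _
        unfold cmpVec; rw [decide_eq_decide]; exact ⟨fun _ => h, fun _ => hq⟩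
      · right; funext i; obtain rfl : i = 0 := Subsingleton.elim _ _
        unfold cmpVec; rw [decide_eq_decide]; exact ⟨fun _ => h, fun _ => hq⟩
    · rcases hcase with h | h
      · right; funext i; obtain rfl : i = 0 := Subsingleton.elim _ _
        unfold cmpVec; rw [decide_eq_decide]
        exact ⟨fun h' => absurd h' hq, fun h' => absurd ⟨h, h'⟩ hnot⟩
      · left; funext i; obtain rfl : i = 0 := Subsingleton.elim _ _
        unfold cmpVec; rw [decide_eq_decide]
        exact ⟨fun h' => absurd h' hq, fun h' => absurd ⟨h', h⟩ hnot⟩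
  rcases hor with h | h
  · rw [h] at e1; exact e2 e1
  · rw [h] at e1; exact e3 e1

theorem Lg_pos (n : ℕ) (hn : 1 ≤ n) : 0 < Lg n := by
  have : (1 : ℝ) ≤ n := by exact_mod_cast hn
  exact Real.logb_pos (by norm_num) (by linarith)

/-- strict counting bound for every `n ≥ 1` -/
theorem lt_f (n : ℕ) (hn : 1 ≤ n) : (n : ℝ) / Lg n < f n := by
  classical
  have hfd : bdim (Full n) ≤ f n := (isGreatest_f n).2 (full_mem n)
  have hfd' : ((bdim (Full n) : ℕ) : ℝ) ≤ f n := by exact_mod_cast hfd
  refine lt_of_lt_of_le ?_ hfd'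
  have hne : {d : ℕ | 1 ≤ d ∧ HasBoolRealizer (Full n) d}.Nonempty := by
    obtain ⟨D, σ, hσ⟩ := exists_cover n
    have := Full.finite n
    exact ⟨D + (1 + 3 * (n + 1)), by omega,
      realizer_of_cover n D (n + 1) σ hσ (Nat.lt_two_pow_self).le (Full n) (Full.isAntichainPlus n)⟩
  obtain ⟨hd1, hreal⟩ := Nat.sInf_mem hne
  change 1 ≤ bdim (Full n) at hd1
  change HasBoolRealizer (Full n) (bdim (Full n)) at hreal
  set d := bdim (Full n) with hd
  have hd2 : 2 ≤ d := by
    by_contra h
    have : d = 1 := by omega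
    rw [this] at hreal
    exact Full.no_one n hn hreal
  obtain ⟨σ, g, hs⟩ := Full.surj_of_realizer n d hreal
  have hninj := gw_not_injective n d hn hd2 σ g
  have hcard : 2 ^ n < (n + 1) ^ d := by
    have h1 : Fintype.card (Fin n → Bool) = 2 ^ n := by
      rw [Fintype.card_fun, Fintype.card_bool, Fintype.card_fin]
    have h2 : Fintype.card (Fin d → Fin (n + 1)) = (n + 1) ^ d := by
      rw [Fintype.card_fun, Fintype.card_fin, Fintype.card_fin]
    rw [← h1, ← h2]
    exact Fintype.card_lt_of_surjective_not_injective _ hs hninj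
  have hcard' : (2 : ℝ) ^ n < ((n : ℝ) + 1) ^ d := by exact_mod_cast hcard
  rw [div_lt_iff₀ (Lg_pos n hn)]
  have h3 := Real.logb_lt_logb (b := 2) (by norm_num) (by positivity) hcard'
  rw [Real.logb_pow, Real.logb_pow, Real.logb_self_eq_one (by norm_num)] at h3
  unfold Lg
  linarith

/-- bounds for every `n ≥ 1` -/
theorem main_all : (∀ n : ℕ, IsGreatest (bdims n) (f n)) ∧
    ∃ c C : ℝ, 0 < c ∧ 0 < C ∧ ∀ n : ℕ, 1 ≤ n →
      (n : ℝ) / Lg n + c * n / (Lg n) ^ 3 ≤ f n ∧
      (f n : ℝ) ≤ (n : ℝ) / Lg n + C * n / (Lg n) ^ 3 := by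
  refine ⟨isGreatest_f, ?_⟩
  obtain ⟨c, hc, h1⟩ := lower
  obtain ⟨C, hC, h2⟩ := upper
  obtain ⟨N, hN⟩ := Filter.eventually_atTop.mp (h1.and h2)
  -- the normalised error
  set E : ℕ → ℝ := fun n => ((f n : ℝ) - (n : ℝ) / Lg n) * (Lg n) ^ 3 / n with hE
  have hEpos : ∀ n, 1 ≤ n → 0 < E n := by
    intro n hn
    have := lt_f n hn
    have hL := Lg_pos n hn
    have hn0 : (0 : ℝ) < n := by exact_mod_cast hn
    simp only [hE]
    have : 0 < (f n : ℝ) - (n : ℝ) / Lg n := by linarith
    positivity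
  have hEeq : ∀ n, 1 ≤ n → (f n : ℝ) = (n : ℝ) / Lg n + E n * n / (Lg n) ^ 3 := by
    intro n hn
    have hL := Lg_pos n hn
    have hn0 : (0 : ℝ) < n := by exact_mod_cast hn
    simp only [hE]
    field_simp
    ring
  -- constants
  have hcmin : ∃ c' : ℝ, 0 < c' ∧ c' ≤ c ∧ ∀ n ∈ Finset.Icc 1 N, c' ≤ E n := by
    rcases (Finset.Icc 1 N).eq_empty_or_nonempty with h | h
    · exact ⟨c, hc, le_rfl, by simp [h]⟩
    · obtain ⟨m, hm, hmin⟩ := Finset.exists_min_image (Finset.Icc 1 N) E h
      refine ⟨min c (E m), lt_min hc (hEpos m (Finset.mem_Icc.mp hm).1), min_le_left _ _, ?_⟩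
      intro n hn
      exact (min_le_right _ _).trans (hmin n hn)
  have hCmax : ∃ C' : ℝ, C ≤ C' ∧ ∀ n ∈ Finset.Icc 1 N, E n ≤ C' := by
    rcases (Finset.Icc 1 N).eq_empty_or_nonempty with h | h
    · exact ⟨C, le_rfl, by simp [h]⟩
    · obtain ⟨m, hm, hmax⟩ := Finset.exists_max_image (Finset.Icc 1 N) E h
      refine ⟨max C (E m), le_max_left _ _, ?_⟩
      intro n hn
      exact (hmax n hn).trans (le_max_right _ _)
  obtain ⟨c', hc', hcc, hc''⟩ := hcmin
  obtain ⟨C', hCC, hC''⟩ := hCmax
  refine ⟨c', C', hc', lt_of_lt_of_le hC hCC, ?_⟩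
  intro n hn
  have hL := Lg_pos n hn
  have hn0 : (0 : ℝ) < n := by exact_mod_cast hn
  have hpos : 0 < (n : ℝ) / (Lg n) ^ 3 := by positivity
  rcases le_or_gt N n with h | h
  · obtain ⟨h3, h4⟩ := hN n h
    constructor
    · refine le_trans (add_le_add le_rfl ?_) h3
      rw [mul_div_assoc, mul_div_assoc]
      exact mul_le_mul_of_nonneg_right hcc hpos.le
    · refine h4.trans (add_le_add le_rfl ?_)
      rw [mul_div_assoc, mul_div_assoc]
      exact mul_le_mul_of_nonneg_right hCC hpos.le
  · have hmem : n ∈ Finset.Icc 1 N := Finset.mem_Icc.mpr ⟨hn, h.le⟩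
    rw [hEeq n hn, mul_div_assoc, mul_div_assoc, mul_div_assoc]
    constructor
    · exact add_le_add le_rfl (mul_le_mul_of_nonneg_right (hc'' n hmem) hpos.le)
    · exact add_le_add le_rfl (mul_le_mul_of_nonneg_right (hC'' n hmem) hpos.le)

end Pool.Agent.BoolDim
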