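import Pool.Agent.BoolDim.Defs

/-!
# BD-2: the second moment over random permutations
-/

open Finset

namespace Pool.Agent.BoolDim

/-- The sign character of `ZMod 2`. -/
def chi (u : ZMod 2) : ℝ := if u = 0 then 1 else -1

theorem chi_add (u v : ZMod 2) : chi (u + v) = chi u * chi v := by
  unfold chi
  revert u v
  have h : ∀ u v : ZMod 2, (u + v = 0 ↔ (u = 0 ↔ v = 0)) := by decide
  intro u v
  rw [if_congr (h u v) rfl rfl]
  by_cases h1 : u = 0 <;> by_cases h2 : v = 0 <;> simp [h1, h2]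

theorem chi_zero : chi 0 = 1 := if_pos rfl

theorem chi_sum {ι : Type*} (s : Finset ι) (g : ι → ZMod 2) : chi (∑ i ∈ s, g i) = ∏ i ∈ s, chi (g i) := by
  classical
  induction s using Finset.induction_on with
  | empty => simp [chi_zero]
  | insert a s ha ih => rw [sum_insert ha, prod_insert ha, chi_add, ih]

theorem chi_ite (p : Prop) [Decidable p] : chi (if p then 1 else 0) = if p then (-1 : ℝ) else 1 := by
  by_cases h : p
  · rw [if_pos h, if_pos h]
    unfold chi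
    rw [if_neg (by decide)]
  · rw [if_neg h, if_neg h, chi_zero]

/-- Orthogonality of characters. -/
theorem sum_chi {n : ℕ} (u : Fin n → ZMod 2) :
    ∑ K : Finset (Fin n), ∏ b ∈ K, chi (u b) = if u = 0 then (2 : ℝ) ^ n else 0 := by
  have h1 : ∑ K : Finset (Fin n), ∏ b ∈ K, chi (u b) = ∏ b, (1 + chi (u b)) := by
    rw [prod_one_add]
    rw [powerset_univ]
  rw [h1]
  by_cases h : u = 0
  · rw [if_pos h, h]
    simp only [Pi.zero_apply, chi_zero]
    rw [prod_const, card_univ, Fintype.card_fin]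
    norm_num
  · rw [if_neg h]
    obtain ⟨b, hb⟩ := Function.ne_iff.1 h
    apply prod_eq_zero (mem_univ b)
    have hb' : u b ≠ 0 := hb
    unfold chi
    rw [if_neg hb']
    norm_num

/-- The Fourier coefficient of the position count. -/
theorem sum_prod_chi {n d : ℕ} (σ : Fin d → Equiv.Perm (Fin n)) (K : Finset (Fin n)) :
    ∑ j : Fin d → Fin (n + 1), ∏ b ∈ K, chi (wd σ j b) = ∏ i, ((Zp (σ i) K : ℤ) : ℝ) := by
  have h1 : ∀ j : Fin d → Fin (n + 1), ∏ b ∈ K, chi (wd σ j b) =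
      ∏ i, ∏ b ∈ K, (if (σ i b).val < (j i).val then (-1 : ℝ) else 1) := by
    intro j
    rw [prod_comm]
    refine prod_congr rfl fun b _ => ?_
    rw [wd, chi_sum]
    exact prod_congr rfl fun i _ => chi_ite _
  simp_rw [h1]
  have h2 := Finset.prod_univ_sum (fun _ : Fin d => (univ : Finset (Fin (n + 1))))
    (fun i (t : Fin (n + 1)) => ∏ b ∈ K, (if (σ i b).val < t.val then (-1 : ℝ) else 1))
  rw [Fintype.piFinset_univ] at h2
  rw [← h2]
  refine prod_congr rfl fun i _ => ?_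
  unfold Zp
  push_cast
  refine sum_congr rfl fun t _ => ?_
  rw [prod_ite, prod_const, prod_const_one, mul_one]

/-- The number of pairs of positions with the same word. -/
noncomputable def pairs {n d : ℕ} (σ : Fin d → Equiv.Perm (Fin n)) : ℝ :=
  ∑ j : Fin d → Fin (n + 1), ∑ j' : Fin d → Fin (n + 1), if wd σ j = wd σ j' then (1 : ℝ) else 0

theorem pairs_eq {n d : ℕ} (σ : Fin d → Equiv.Perm (Fin n)) :
    (2 : ℝ) ^ n * pairs σ = ∑ K : Finset (Fin n), ∏ i, ((Zp (σ i) K : ℤ) : ℝ) ^ 2 := by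
  have h1 : ∀ j j' : Fin d → Fin (n + 1), (2 : ℝ) ^ n * (if wd σ j = wd σ j' then (1 : ℝ) else 0) =
      ∑ K : Finset (Fin n), (∏ b ∈ K, chi (wd σ j b)) * ∏ b ∈ K, chi (wd σ j' b) := by
    intro j j'
    have h2 := sum_chi (fun b => wd σ j b + wd σ j' b)
    have h3 : ((fun b => wd σ j b + wd σ j' b) = 0) ↔ wd σ j = wd σ j' := by
      have h4 : ∀ u v : ZMod 2, u + v = 0 ↔ u = v := by decide
      constructor
      · intro h
        funext b
        exact (h4 _ _).1 (congrFun h b)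
      · intro h
        funext b
        exact (h4 _ _).2 (congrFun h b)
    rw [if_congr h3 rfl rfl] at h2
    rw [mul_ite, mul_one, mul_zero, ← h2]
    refine sum_congr rfl fun K _ => ?_
    rw [← prod_mul_distrib]
    exact prod_congr rfl fun b _ => chi_add _ _
  unfold pairs
  rw [mul_sum]
  simp_rw [mul_sum, h1]
  have h2 : ∑ j : Fin d → Fin (n + 1), ∑ j' : Fin d → Fin (n + 1), ∑ K : Finset (Fin n),
      (∏ b ∈ K, chi (wd σ j b)) * ∏ b ∈ K, chi (wd σ j' b) =
      ∑ K : Finset (Fin n), ∑ j : Fin d → Fin (n + 1), ∑ j' : Fin d → Fin (n + 1),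
      (∏ b ∈ K, chi (wd σ j b)) * ∏ b ∈ K, chi (wd σ j' b) := by
    rw [sum_comm]
    have : ∀ j' : Fin d → Fin (n + 1), ∑ j : Fin d → Fin (n + 1), ∑ K : Finset (Fin n),
        (∏ b ∈ K, chi (wd σ j b)) * ∏ b ∈ K, chi (wd σ j' b) =
        ∑ K : Finset (Fin n), ∑ j : Fin d → Fin (n + 1),
        (∏ b ∈ K, chi (wd σ j b)) * ∏ b ∈ K, chi (wd σ j' b) := fun j' => sum_comm
    simp_rw [this]
    rw [sum_comm]
    refine sum_congr rfl fun K _ => ?_
    rw [sum_comm]
  rw [h2]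
  refine sum_congr rfl fun K _ => ?_
  simp_rw [← mul_sum]
  rw [← sum_mul, sum_prod_chi, prod_pow]
  ring

/-- Cauchy-Schwarz. -/
theorem card_sq_le {n d : ℕ} (σ : Fin d → Equiv.Perm (Fin n)) :
    (((n : ℝ) + 1) ^ d) ^ 2 ≤ ((univ.image (wd σ)).card : ℝ) * pairs σ := by
  have h1 : ((n : ℝ) + 1) ^ d = ∑ w ∈ univ.image (wd σ), ((univ.filter (fun j => wd σ j = w)).card : ℝ) := by
    have h2 := Finset.card_eq_sum_card_image (wd σ) (univ : Finset (Fin d → Fin (n + 1)))
    rw [card_univ, Fintype.card_fun, Fintype.card_fin, Fintype.card_fin] at h2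
    have h3 : (((n + 1) ^ d : ℕ) : ℝ) = ((n : ℝ) + 1) ^ d := by push_cast; ring
    rw [← h3, h2]
    push_cast
    rfl
  have h2 : pairs σ = ∑ w ∈ univ.image (wd σ), ((univ.filter (fun j => wd σ j = w)).card : ℝ) ^ 2 := by
    unfold pairs
    rw [← sum_fiberwise_of_maps_to (s := univ) (t := univ.image (wd σ)) (g := wd σ)
      (fun j _ => mem_image_of_mem _ (mem_univ j))]
    refine sum_congr rfl fun w _ => ?_
    have h3 : ∀ j ∈ univ.filter (fun j => wd σ j = w),
        ∑ j' : Fin d → Fin (n + 1), (if wd σ j = wd σ j' then (1 : ℝ) else 0) =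
          ((univ.filter (fun j => wd σ j = w)).card : ℝ) := by
      intro j hj
      rw [(mem_filter.1 hj).2, ← sum_filter, sum_const, nsmul_eq_mul, mul_one]
      congr 2
      ext j'
      simp only [mem_filter, mem_univ, true_and]
      exact eq_comm
    rw [sum_congr rfl h3, sum_const, nsmul_eq_mul]
    ring
  rw [h1, h2]
  exact sq_sum_le_card_mul_sum_sq

/-- [BD-2], from [BD-1b]. -/
theorem exists_perm_range_of
    (hBD1 : ∀ (n : ℕ) (K : Finset (Fin n)),
      (∑ σ : Equiv.Perm (Fin n), ((Zp σ K : ℤ) : ℝ) ^ 2) ≤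
        (n.factorial : ℝ) * (((n : ℝ) + 1) ^ 2 *
          (((n : ℝ) + 1 - K.card) / (((n : ℝ) + 1) * (K.card + 1)))))
    (n d : ℕ) : ∃ σ : Fin d → Equiv.Perm (Fin n),
    (2 : ℝ) ^ n ≤ ((univ.image (wd σ)).card : ℝ) * Mb n d := by
  -- the average number of pairs
  have h1 : ∑ σ : Fin d → Equiv.Perm (Fin n), (2 : ℝ) ^ n * pairs σ ≤
      ∑ _σ : Fin d → Equiv.Perm (Fin n), ((n : ℝ) + 1) ^ (2 * d) * Mb n d := by
    simp_rw [pairs_eq]
    rw [sum_comm]
    have h2 : ∀ K : Finset (Fin n), ∑ σ : Fin d → Equiv.Perm (Fin n), ∏ i, ((Zp (σ i) K : ℤ) : ℝ) ^ 2 =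
        (∑ π : Equiv.Perm (Fin n), ((Zp π K : ℤ) : ℝ) ^ 2) ^ d := by
      intro K
      have h3 := Finset.prod_univ_sum (fun _ : Fin d => (univ : Finset (Equiv.Perm (Fin n))))
        (fun _ (π : Equiv.Perm (Fin n)) => ((Zp π K : ℤ) : ℝ) ^ 2)
      rw [Fintype.piFinset_univ, prod_const, card_univ, Fintype.card_fin] at h3
      rw [h3]
    simp_rw [h2]
    have h4 : ∀ K : Finset (Fin n), (∑ π : Equiv.Perm (Fin n), ((Zp π K : ℤ) : ℝ) ^ 2) ^ d ≤
        ((n.factorial : ℝ) ^ d * ((n : ℝ) + 1) ^ (2 * d)) *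
          (((n : ℝ) + 1 - K.card) / (((n : ℝ) + 1) * (K.card + 1))) ^ d := by
      intro K
      have h5 := pow_le_pow_left₀ (sum_nonneg fun π _ => sq_nonneg _) (hBD1 n K) d
      refine h5.trans (le_of_eq ?_)
      rw [mul_pow, mul_pow, ← pow_mul]
      ring
    refine (sum_le_sum fun K _ => h4 K).trans (le_of_eq ?_)
    rw [← mul_sum, sum_const, card_univ, Fintype.card_fun, Fintype.card_fin, Fintype.card_perm,
      Fintype.card_fin, nsmul_eq_mul]
    have h6 : ∑ K : Finset (Fin n), (((n : ℝ) + 1 - K.card) / (((n : ℝ) + 1) * (K.card + 1))) ^ d =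
        Mb n d := by
      unfold Mb
      rw [← powerset_univ, sum_powerset_apply_card
        (fun k => (((n : ℝ) + 1 - k) / (((n : ℝ) + 1) * (k + 1))) ^ d), card_univ, Fintype.card_fin]
      exact sum_congr rfl fun k _ => by rw [nsmul_eq_mul]
    rw [h6]
    push_cast
    ring
  obtain ⟨σ, -, hσ⟩ := exists_le_of_sum_le ⟨fun _ => 1, mem_univ _⟩ h1
  refine ⟨σ, ?_⟩
  have h2 := card_sq_le σ
  have hpos : (0 : ℝ) < ((n : ℝ) + 1) ^ (2 * d) := by positivity
  have h3 : ((n : ℝ) + 1) ^ (2 * d) * (2 : ℝ) ^ n ≤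
      ((n : ℝ) + 1) ^ (2 * d) * (((univ.image (wd σ)).card : ℝ) * Mb n d) := by
    have h4 : (((n : ℝ) + 1) ^ d) ^ 2 = ((n : ℝ) + 1) ^ (2 * d) := by
      rw [← pow_mul, mul_comm]
    rw [h4] at h2
    calc ((n : ℝ) + 1) ^ (2 * d) * (2 : ℝ) ^ n
        ≤ (((univ.image (wd σ)).card : ℝ) * pairs σ) * (2 : ℝ) ^ n :=
          mul_le_mul_of_nonneg_right h2 (by positivity)
      _ = ((univ.image (wd σ)).card : ℝ) * ((2 : ℝ) ^ n * pairs σ) := by ring
      _ ≤ ((univ.image (wd σ)).card : ℝ) * (((n : ℝ) + 1) ^ (2 * d) * Mb n d) :=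
          mul_le_mul_of_nonneg_left hσ (by positivity)
      _ = _ := by ring
  exact le_of_mul_le_mul_left h3 hpos

end Pool.Agent.BoolDim
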