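import Pool.Agent.BoolDim.Defs

/-!
# [BD-3] Bound for the normalised second moment
-/

open Finset

namespace Pool.Agent.BoolDim

private noncomputable def rt (n k : ℕ) : ℝ :=
  ((n : ℝ) + 1 - k) / (((n : ℝ) + 1) * (k + 1))

private lemma rt_nonneg {n k : ℕ} (hk : k ≤ n) : 0 ≤ rt n k := by
  unfold rt
  have : (k : ℝ) ≤ n := by exact_mod_cast hk
  exact div_nonneg (by linarith) (by positivity)

private lemma rt_le {n k : ℕ} : rt n k ≤ 1 / ((k : ℝ) + 1) := by
  unfold rt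
  rw [div_le_div_iff₀ (by positivity) (by positivity)]
  have h1 : (0 : ℝ) ≤ k := Nat.cast_nonneg k
  nlinarith [mul_nonneg h1 (by positivity : (0 : ℝ) ≤ (k : ℝ) + 1)]

private lemma pow_Lg (n : ℕ) : Real.log ((n : ℝ) + 1) = Lg n * Real.log 2 := by
  unfold Lg Real.logb
  field_simp

/-- small `k` -/
private lemma term_small {n d k : ℕ} (hk1 : 1 ≤ k) (hkn : k ≤ n) (hkd : (k : ℝ) * Lg n ≤ d) :
    (n.choose k : ℝ) * rt n k ^ d ≤ 1 := by
  have hN : (0 : ℝ) < (n : ℝ) + 1 := by positivity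
  have h1 : (n.choose k : ℝ) ≤ ((n : ℝ) + 1) ^ k := by
    have : n.choose k ≤ n ^ k := Nat.choose_le_pow n k
    calc (n.choose k : ℝ) ≤ (n : ℝ) ^ k := by exact_mod_cast this
      _ ≤ ((n : ℝ) + 1) ^ k := pow_le_pow_left₀ (by positivity) (by linarith) k
  have h2 : rt n k ≤ 1 / 2 := by
    refine rt_le.trans ?_
    have : (1 : ℝ) ≤ k := by exact_mod_cast hk1
    rw [div_le_div_iff₀ (by positivity) (by norm_num)]
    linarith
  have h3 : rt n k ^ d ≤ (1 / 2) ^ d := pow_le_pow_left₀ (rt_nonneg hkn) h2 d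
  have h4 : ((n : ℝ) + 1) ^ k = Real.exp (k * Real.log ((n : ℝ) + 1)) := by
    rw [mul_comm, Real.exp_mul, Real.exp_log hN, Real.rpow_natCast]
  have h5 : ((1 : ℝ) / 2) ^ d = Real.exp (-(d * Real.log 2)) := by
    rw [Real.exp_neg, mul_comm, Real.exp_mul, Real.exp_log (by norm_num), Real.rpow_natCast]
    simp
  calc (n.choose k : ℝ) * rt n k ^ d ≤ ((n : ℝ) + 1) ^ k * (1 / 2) ^ d :=
        mul_le_mul h1 h3 (pow_nonneg (rt_nonneg hkn) d) (by positivity)
    _ = Real.exp (k * (Lg n * Real.log 2) + -(d * Real.log 2)) := by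
        rw [h4, h5, ← Real.exp_add, pow_Lg]
    _ ≤ 1 := by
        rw [Real.exp_le_one_iff]
        have := Real.log_pos (by norm_num : (1 : ℝ) < 2)
        nlinarith

/-- middle `k` -/
private lemma term_mid {n d k : ℕ} (hkn : 8 * k ≤ n) (hL : 1 ≤ Lg n)
    (hnL : Lg n ^ 2 * ((n : ℝ) + 1) ^ (3 / 5 : ℝ) ≤ n)
    (hd : (n : ℝ) ≤ d * Lg n) (hkd : (d : ℝ) < (k : ℝ) * Lg n) :
    (n.choose k : ℝ) * rt n k ^ d ≤ 1 := by
  have hN : (0 : ℝ) < (n : ℝ) + 1 := by positivity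
  have hkn' : k ≤ n := by omega
  have hlog2 := Real.log_two_gt_d9
  -- choose bound
  have h1 : (n.choose k : ℝ) ≤ (9 / 8) ^ n * 8 ^ k := by
    have hb : (n.choose k : ℝ) * (1 / 8) ^ k ≤ (9 / 8) ^ n := by
      have := add_pow (1 / 8 : ℝ) 1 n
      have h9 : (1 / 8 : ℝ) + 1 = 9 / 8 := by norm_num
      rw [h9] at this
      rw [this]
      have := Finset.single_le_sum (f := fun m => (1 / 8 : ℝ) ^ m * 1 ^ (n - m) * (n.choose m : ℝ))
        (s := range (n + 1)) (fun i _ => by positivity) (mem_range.2 (by omega : k < n + 1))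
      refine le_trans (le_of_eq ?_) this
      simp
      ring
    have h8 : ((1 : ℝ) / 8) ^ k * 8 ^ k = 1 := by
      rw [← mul_pow]; norm_num
    calc (n.choose k : ℝ) = (n.choose k : ℝ) * (((1 : ℝ) / 8) ^ k * 8 ^ k) := by rw [h8, mul_one]
      _ = ((n.choose k : ℝ) * (1 / 8) ^ k) * 8 ^ k := by ring
      _ ≤ (9 / 8) ^ n * 8 ^ k := mul_le_mul_of_nonneg_right hb (by positivity)
  -- k is large
  have h2 : ((n : ℝ) + 1) ^ (3 / 5 : ℝ) ≤ (k : ℝ) + 1 := by
    have hL0 : 0 < Lg n := by linarith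
    have h3 : Lg n ^ 2 * ((n : ℝ) + 1) ^ (3 / 5 : ℝ) ≤ Lg n ^ 2 * k := by
      calc Lg n ^ 2 * ((n : ℝ) + 1) ^ (3 / 5 : ℝ) ≤ n := hnL
        _ ≤ d * Lg n := hd
        _ ≤ (k * Lg n) * Lg n := mul_le_mul_of_nonneg_right hkd.le hL0.le
        _ = Lg n ^ 2 * k := by ring
    have := le_of_mul_le_mul_left h3 (by positivity)
    linarith
  have h3 : rt n k ≤ ((n : ℝ) + 1) ^ (-(3 / 5) : ℝ) := by
    refine rt_le.trans ?_
    rw [Real.rpow_neg hN.le, ← one_div]
    exact one_div_le_one_div_of_le (by positivity) h2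
  have h4 : rt n k ^ d ≤ Real.exp (-(3 / 5) * (n * Real.log 2)) := by
    calc rt n k ^ d ≤ (((n : ℝ) + 1) ^ (-(3 / 5) : ℝ)) ^ d :=
          pow_le_pow_left₀ (rt_nonneg hkn') h3 d
      _ = Real.exp (-(3 / 5) * (d * (Lg n * Real.log 2))) := by
          rw [Real.rpow_def_of_pos hN, ← Real.exp_nat_mul, pow_Lg]
          congr 1; ring
      _ ≤ _ := by
          rw [Real.exp_le_exp]
          nlinarith
  have h5 : ((9 : ℝ) / 8) ^ n ≤ Real.exp (n * (1 / 8)) := by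
    rw [Real.exp_nat_mul]
    refine pow_le_pow_left₀ (by norm_num) ?_ n
    have := Real.add_one_le_exp (1 / 8 : ℝ)
    linarith
  have h6 : (8 : ℝ) ^ k ≤ Real.exp (n * (3 / 8) * Real.log 2) := by
    have : (8 : ℝ) ^ k = Real.exp (3 * k * Real.log 2) := by
      rw [mul_comm, Real.exp_mul, Real.exp_log (by norm_num)]
      rw [show (8 : ℝ) = 2 ^ 3 by norm_num, ← pow_mul]
      rw [← Real.rpow_natCast]
      push_cast
      ring_nf
    rw [this, Real.exp_le_exp]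
    have h8 : (8 : ℝ) * k ≤ n := by exact_mod_cast hkn
    nlinarith
  calc (n.choose k : ℝ) * rt n k ^ d
      ≤ (Real.exp (n * (1 / 8)) * Real.exp (n * (3 / 8) * Real.log 2)) *
          Real.exp (-(3 / 5) * (n * Real.log 2)) := by
        refine mul_le_mul (h1.trans ?_) h4 (pow_nonneg (rt_nonneg hkn') d) (by positivity)
        exact mul_le_mul h5 h6 (by positivity) (by positivity)
    _ ≤ 1 := by
        rw [← Real.exp_add, ← Real.exp_add, Real.exp_le_one_iff]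
        have : (0 : ℝ) ≤ n := Nat.cast_nonneg n
        nlinarith

private lemma one_add_le (y : ℝ) (h0 : 0 ≤ y) (h1 : y ≤ 3 / 4) :
    1 + y ≤ (1 - y) * Real.exp (3 * y) := by
  have h := Real.sum_le_exp_of_nonneg (x := 3 * y) (by positivity) 4
  simp [Finset.sum_range_succ, Nat.factorial] at h
  have h2 : (1 - y) * (1 + 3 * y + (3 * y) ^ 2 / 2 + (3 * y) ^ 3 / 6) ≤
      (1 - y) * Real.exp (3 * y) := by
    refine mul_le_mul_of_nonneg_left ?_ (by linarith)
    linarith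
  refine le_trans ?_ h2
  have h3 : 0 ≤ 1 + 3 / 2 * y - 9 / 2 * y ^ 3 := by
    have : y ^ 3 ≤ 3 / 4 * (3 / 4) * y := by nlinarith [mul_nonneg h0 h0, mul_nonneg (mul_nonneg h0 h0) (by linarith : 0 ≤ 3 / 4 - y), mul_nonneg h0 (by linarith : 0 ≤ 3 / 4 - y)]
    nlinarith
  nlinarith [mul_nonneg h0 h3]

/-- large `k`: pointwise -/
private lemma pow_rt_le {n d k : ℕ} (hkn : n < 8 * k) (hk : k ≤ n) :
    rt n k ^ d ≤ (((n : ℝ) + 1)⁻¹) ^ d *
      (1 + Real.exp ((3 * d / ((n : ℝ) + 2)) * ((n : ℝ) - 2 * k))) := by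
  have hN : (0 : ℝ) < (n : ℝ) + 1 := by positivity
  have hk' : (k : ℝ) ≤ n := by exact_mod_cast hk
  have hkn' : (n : ℝ) < 8 * k := by exact_mod_cast hkn
  have h1 : rt n k = ((n : ℝ) + 1)⁻¹ * (((n : ℝ) + 1 - k) / (k + 1)) := by
    unfold rt; field_simp
  rw [h1, mul_pow]
  refine mul_le_mul_of_nonneg_left ?_ (by positivity)
  have hq0 : 0 ≤ ((n : ℝ) + 1 - k) / (k + 1) := div_nonneg (by linarith) (by positivity)
  by_cases hy : (2 : ℝ) * k ≤ n
  · set y : ℝ := ((n : ℝ) - 2 * k) / ((n : ℝ) + 2) with hy_def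
    have hy0 : 0 ≤ y := div_nonneg (by linarith) (by positivity)
    have hy1 : y ≤ 3 / 4 := by
      rw [hy_def, div_le_iff₀ (by positivity)]
      linarith
    have hq : ((n : ℝ) + 1 - k) / (k + 1) ≤ Real.exp (3 * y) := by
      rw [div_le_iff₀ (by positivity)]
      have := one_add_le y hy0 hy1
      have e1 : 1 + y = 2 * ((n : ℝ) + 1 - k) / ((n : ℝ) + 2) := by
        rw [hy_def]; field_simp; ring
      have e2 : 1 - y = 2 * ((k : ℝ) + 1) / ((n : ℝ) + 2) := by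
        rw [hy_def]; field_simp; ring
      rw [e1, e2] at this
      have h5 : 2 * ((n : ℝ) + 1 - k) / ((n : ℝ) + 2) =
        (2 / ((n : ℝ) + 2)) * ((n : ℝ) + 1 - k) := by ring
      have h6 : 2 * ((k : ℝ) + 1) / ((n : ℝ) + 2) * Real.exp (3 * y) =
        (2 / ((n : ℝ) + 2)) * (Real.exp (3 * y) * ((k : ℝ) + 1)) := by ring
      rw [h5, h6] at this
      exact le_of_mul_le_mul_left this (by positivity)
    calc (((n : ℝ) + 1 - k) / (k + 1)) ^ d ≤ (Real.exp (3 * y)) ^ d :=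
          pow_le_pow_left₀ hq0 hq d
      _ = Real.exp ((3 * d / ((n : ℝ) + 2)) * ((n : ℝ) - 2 * k)) := by
          rw [← Real.exp_nat_mul, hy_def]
          congr 1
          ring
      _ ≤ _ := by linarith
  · have hq : ((n : ℝ) + 1 - k) / (k + 1) ≤ 1 := by
      rw [div_le_one (by positivity)]
      have h7 : ¬ 2 * k ≤ n := fun h => hy (by exact_mod_cast h)
      have h8 : n + 1 ≤ 2 * k := by omega
      have h9 : (n : ℝ) + 1 ≤ 2 * k := by exact_mod_cast h8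
      linarith
    calc (((n : ℝ) + 1 - k) / (k + 1)) ^ d ≤ 1 := pow_le_one₀ hq0 hq
      _ ≤ _ := by
        have := Real.exp_pos ((3 * d / ((n : ℝ) + 2)) * ((n : ℝ) - 2 * k))
        linarith

private lemma sum_choose_exp (n : ℕ) (t : ℝ) :
    ∑ k ∈ range (n + 1), (n.choose k : ℝ) * Real.exp (t * ((n : ℝ) - 2 * k)) =
      (2 * Real.cosh t) ^ n := by
  have h := add_pow (Real.exp (-t)) (Real.exp t) n
  have h2 : 2 * Real.cosh t = Real.exp (-t) + Real.exp t := by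
    rw [Real.cosh_eq]; ring
  rw [h2, h]
  refine Finset.sum_congr rfl fun k hk => ?_
  have hk' : k ≤ n := by have := mem_range.1 hk; omega
  rw [← Real.exp_nat_mul, ← Real.exp_nat_mul, ← Real.exp_add, mul_comm]
  congr 2
  push_cast [Nat.cast_sub hk']
  ring

/-- large `k`: sum -/
private lemma sum_large {n d : ℕ} (hn : 1 ≤ n) (hL : 1 ≤ Lg n)
    (hd : (n : ℝ) / Lg n + 36 * n / (Lg n) ^ 3 ≤ d) (hd2 : (d : ℝ) ≤ 2 * n / Lg n) :
    ∑ k ∈ (range (n + 1)).filter (fun k => n < 8 * k), (n.choose k : ℝ) * rt n k ^ d ≤ 2 := by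
  have hN : (0 : ℝ) < (n : ℝ) + 1 := by positivity
  have hL0 : 0 < Lg n := by linarith
  have hn0 : (0 : ℝ) < n := by exact_mod_cast hn
  set t : ℝ := 3 * d / ((n : ℝ) + 2) with ht
  have h1 : ∑ k ∈ (range (n + 1)).filter (fun k => n < 8 * k), (n.choose k : ℝ) * rt n k ^ d ≤
      (((n : ℝ) + 1)⁻¹) ^ d * ((2 : ℝ) ^ n + (2 * Real.cosh t) ^ n) := by
    calc ∑ k ∈ (range (n + 1)).filter (fun k => n < 8 * k), (n.choose k : ℝ) * rt n k ^ d
        ≤ ∑ k ∈ (range (n + 1)).filter (fun k => n < 8 * k), (n.choose k : ℝ) *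
          ((((n : ℝ) + 1)⁻¹) ^ d * (1 + Real.exp (t * ((n : ℝ) - 2 * k)))) := by
          refine Finset.sum_le_sum fun k hk => ?_
          obtain ⟨hk1, hk2⟩ := mem_filter.1 hk
          refine mul_le_mul_of_nonneg_left ?_ (by positivity)
          exact pow_rt_le hk2 (by have := mem_range.1 hk1; omega)
      _ ≤ ∑ k ∈ range (n + 1), (n.choose k : ℝ) *
          ((((n : ℝ) + 1)⁻¹) ^ d * (1 + Real.exp (t * ((n : ℝ) - 2 * k)))) := by
          refine Finset.sum_le_sum_of_subset_of_nonneg (filter_subset _ _) fun i _ _ => ?_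
          positivity
      _ = (((n : ℝ) + 1)⁻¹) ^ d * ((∑ k ∈ range (n + 1), (n.choose k : ℝ)) +
            ∑ k ∈ range (n + 1), (n.choose k : ℝ) * Real.exp (t * ((n : ℝ) - 2 * k))) := by
          rw [← Finset.sum_add_distrib, Finset.mul_sum]
          refine Finset.sum_congr rfl fun k _ => ?_
          ring
      _ = _ := by
          rw [sum_choose_exp]
          congr 2
          exact_mod_cast Nat.sum_range_choose n
  have h2 : (2 * Real.cosh t) ^ n ≤ (2 : ℝ) ^ n * Real.exp (18 * n / Lg n ^ 2) := by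
    rw [mul_pow]
    refine mul_le_mul_of_nonneg_left ?_ (by positivity)
    calc Real.cosh t ^ n ≤ (Real.exp (t ^ 2 / 2)) ^ n :=
          pow_le_pow_left₀ (by have := Real.one_le_cosh t; linarith) (Real.cosh_le_exp_half_sq t) n
      _ = Real.exp (n * (t ^ 2 / 2)) := by rw [← Real.exp_nat_mul]
      _ ≤ _ := by
          rw [Real.exp_le_exp]
          have ht1 : t ≤ 6 / Lg n := by
            rw [ht, div_le_div_iff₀ (by positivity) hL0]
            have : (d : ℝ) * Lg n ≤ 2 * n := by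
              rwa [le_div_iff₀ hL0] at hd2
            nlinarith
          have ht0 : 0 ≤ t := by rw [ht]; positivity
          have ht2 : t ^ 2 ≤ (6 / Lg n) ^ 2 := pow_le_pow_left₀ ht0 ht1 2
          calc (n : ℝ) * (t ^ 2 / 2) ≤ n * ((6 / Lg n) ^ 2 / 2) := by
                refine mul_le_mul_of_nonneg_left ?_ hn0.le
                linarith
            _ = 18 * n / Lg n ^ 2 := by ring
  have h3 : (((n : ℝ) + 1)⁻¹) ^ d ≤ Real.exp (-(n * Real.log 2) - 18 * n / Lg n ^ 2) := by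
    have hl2 := Real.log_two_gt_d9
    calc (((n : ℝ) + 1)⁻¹) ^ d = Real.exp (-(d * (Lg n * Real.log 2))) := by
          rw [← pow_Lg, Real.exp_neg, Real.exp_nat_mul, Real.exp_log hN, inv_pow]
      _ ≤ _ := by
          rw [Real.exp_le_exp]
          have h4 : (n : ℝ) + 36 * n / Lg n ^ 2 ≤ d * Lg n := by
            calc (n : ℝ) + 36 * n / Lg n ^ 2 = ((n : ℝ) / Lg n + 36 * n / (Lg n) ^ 3) * Lg n := by
                  field_simp
              _ ≤ _ := mul_le_mul_of_nonneg_right hd hL0.le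
          have h5 : 0 ≤ (n : ℝ) / Lg n ^ 2 := by positivity
          have h6 : 36 * (n : ℝ) / Lg n ^ 2 = 36 * (n / Lg n ^ 2) := by ring
          have h7 : 18 * (n : ℝ) / Lg n ^ 2 = 18 * (n / Lg n ^ 2) := by ring
          rw [h6] at h4
          rw [h7]
          nlinarith
  have h4 : (2 : ℝ) ^ n = Real.exp (n * Real.log 2) := by
    rw [Real.exp_nat_mul, Real.exp_log (by norm_num)]
  refine h1.trans ?_
  have h5 : (2 : ℝ) ^ n + (2 * Real.cosh t) ^ n ≤
      2 * Real.exp (n * Real.log 2 + 18 * n / Lg n ^ 2) := by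
    have h6 : (1 : ℝ) ≤ Real.exp (18 * n / Lg n ^ 2) := Real.one_le_exp (by positivity)
    rw [Real.exp_add, ← h4]
    have h7 : (0 : ℝ) < 2 ^ n := by positivity
    nlinarith
  calc (((n : ℝ) + 1)⁻¹) ^ d * ((2 : ℝ) ^ n + (2 * Real.cosh t) ^ n)
      ≤ Real.exp (-(n * Real.log 2) - 18 * n / Lg n ^ 2) *
        (2 * Real.exp (n * Real.log 2 + 18 * n / Lg n ^ 2)) :=
        mul_le_mul h3 h5 (by have := Real.one_le_cosh t; positivity) (by positivity)
    _ = 2 := by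
        rw [mul_left_comm, ← Real.exp_add]
        ring_nf
        simp

private lemma tendsto_Lg : Filter.Tendsto Lg Filter.atTop Filter.atTop := by
  unfold Lg
  have h : Filter.Tendsto (fun n : ℕ => (n : ℝ) + 1) Filter.atTop Filter.atTop :=
    Filter.tendsto_atTop_add_const_right _ _ tendsto_natCast_atTop_atTop
  exact (Real.tendsto_logb_atTop (by norm_num)).comp h

private lemma eventually_mid : ∀ᶠ n : ℕ in Filter.atTop,
    Lg n ^ 2 * ((n : ℝ) + 1) ^ (3 / 5 : ℝ) ≤ n := by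
  have h : Filter.Tendsto (fun n : ℕ => (n : ℝ) + 1) Filter.atTop Filter.atTop :=
    Filter.tendsto_atTop_add_const_right _ _ tendsto_natCast_atTop_atTop
  have h2 : Filter.Tendsto (fun n : ℕ => ((n : ℝ) + 1) ^ (1 / 5 : ℝ)) Filter.atTop Filter.atTop :=
    (tendsto_rpow_atTop (by norm_num)).comp h
  filter_upwards [h2.eventually_ge_atTop 800, Filter.eventually_ge_atTop 1,
    tendsto_Lg.eventually_ge_atTop 0] with n hn hn1 hL0
  have hN : (0 : ℝ) < (n : ℝ) + 1 := by positivity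
  have hn1' : (1 : ℝ) ≤ n := by exact_mod_cast hn1
  have hlog : Real.log ((n : ℝ) + 1) ≤ ((n : ℝ) + 1) ^ (1 / 10 : ℝ) / (1 / 10) :=
    Real.log_le_rpow_div hN.le (by norm_num)
  have hl2 := Real.log_two_gt_d9
  have hLg : Lg n ≤ 20 * ((n : ℝ) + 1) ^ (1 / 10 : ℝ) := by
    have h3 := pow_Lg n
    have h4 : Lg n * (1 / 2) ≤ Lg n * Real.log 2 := mul_le_mul_of_nonneg_left (by linarith) hL0
    have h5 : 0 ≤ ((n : ℝ) + 1) ^ (1 / 10 : ℝ) := by positivity
    rw [← h3] at h4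
    have h6 : ((n : ℝ) + 1) ^ (1 / 10 : ℝ) / (1 / 10) = 10 * ((n : ℝ) + 1) ^ (1 / 10 : ℝ) := by
      ring
    rw [h6] at hlog
    linarith
  have hsq : Lg n ^ 2 ≤ 400 * ((n : ℝ) + 1) ^ (1 / 5 : ℝ) := by
    calc Lg n ^ 2 ≤ (20 * ((n : ℝ) + 1) ^ (1 / 10 : ℝ)) ^ 2 := pow_le_pow_left₀ hL0 hLg 2
      _ = 400 * (((n : ℝ) + 1) ^ (1 / 10 : ℝ) * ((n : ℝ) + 1) ^ (1 / 10 : ℝ)) := by ring
      _ = 400 * ((n : ℝ) + 1) ^ (1 / 5 : ℝ) := by
          rw [← Real.rpow_add hN]; norm_num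
  calc Lg n ^ 2 * ((n : ℝ) + 1) ^ (3 / 5 : ℝ)
      ≤ (400 * ((n : ℝ) + 1) ^ (1 / 5 : ℝ)) * ((n : ℝ) + 1) ^ (3 / 5 : ℝ) :=
        mul_le_mul_of_nonneg_right hsq (by positivity)
    _ = 400 * ((n : ℝ) + 1) ^ (4 / 5 : ℝ) := by
        rw [mul_assoc, ← Real.rpow_add hN]; norm_num
    _ ≤ (1 / 2) * (((n : ℝ) + 1) ^ (1 / 5 : ℝ) * ((n : ℝ) + 1) ^ (4 / 5 : ℝ)) := by
        have : 0 ≤ ((n : ℝ) + 1) ^ (4 / 5 : ℝ) := by positivity
        nlinarith
    _ = (1 / 2) * ((n : ℝ) + 1) := by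
        rw [← Real.rpow_add hN]; norm_num
    _ ≤ n := by linarith

/-- [BD-3] -/
theorem Mb_le : ∃ C : ℝ, 0 < C ∧ ∀ᶠ n : ℕ in Filter.atTop, ∀ d : ℕ,
    (n : ℝ) / Lg n + C * n / (Lg n) ^ 3 ≤ d → (d : ℝ) ≤ 2 * n / Lg n → Mb n d ≤ n + 3 := by
  refine ⟨36, by norm_num, ?_⟩
  filter_upwards [eventually_mid, tendsto_Lg.eventually_ge_atTop 1,
    Filter.eventually_ge_atTop 1] with n hmid hL hn d hd hd2
  have hL0 : 0 < Lg n := by linarith
  have hnd : (n : ℝ) ≤ d * Lg n := by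
    have h1 : (n : ℝ) / Lg n ≤ d := by
      have : 0 ≤ 36 * (n : ℝ) / Lg n ^ 3 := by positivity
      linarith
    rwa [div_le_iff₀ hL0] at h1
  have hterm : ∀ k ∈ (range (n + 1)).filter (fun k => ¬ n < 8 * k),
      (n.choose k : ℝ) * rt n k ^ d ≤ 1 := by
    intro k hk
    obtain ⟨hk1, hk2⟩ := mem_filter.1 hk
    have hkn : 8 * k ≤ n := by omega
    rcases Nat.eq_zero_or_pos k with h0 | hpos
    · subst h0
      have : rt n 0 = 1 := by
        have hN : ((n : ℝ) + 1) ≠ 0 := by positivity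
        unfold rt
        simp [hN]
      simp [this]
    · by_cases hkd : (k : ℝ) * Lg n ≤ d
      · exact term_small hpos (by omega) hkd
      · exact term_mid hkn hL hmid hnd (not_le.1 hkd)
  have hcard : (((range (n + 1)).filter (fun k => ¬ n < 8 * k)).card : ℝ) ≤ n + 1 := by
    have := card_filter_le (range (n + 1)) (fun k => ¬ n < 8 * k)
    rw [card_range] at this
    exact_mod_cast this
  have hsplit : Mb n d = ∑ k ∈ (range (n + 1)).filter (fun k => n < 8 * k),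
        (n.choose k : ℝ) * rt n k ^ d +
      ∑ k ∈ (range (n + 1)).filter (fun k => ¬ n < 8 * k), (n.choose k : ℝ) * rt n k ^ d := by
    rw [Finset.sum_filter_add_sum_filter_not]
    rfl
  rw [hsplit]
  have h1 := sum_large hn hL hd hd2
  have h2 : ∑ k ∈ (range (n + 1)).filter (fun k => ¬ n < 8 * k), (n.choose k : ℝ) * rt n k ^ d ≤
      n + 1 := by
    refine (Finset.sum_le_card_nsmul _ _ 1 hterm).trans ?_
    simpa using hcard
  linarith

end Pool.Agent.BoolDim
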