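import Pool.Agent.BoolDim.Defs

/-!
# [BD-4] amplification by random translations
-/

open Finset

namespace Pool.Agent.BoolDim

namespace T4

theorem exists_translate {n : ℕ} (X : Finset (Fin n → ZMod 2)) :
    ∃ p : Fin n → ZMod 2,
      ((univ.filter (fun v => v ∉ X ∧ v + p ∉ X)).card : ℝ) ≤
        ((univ.filter (fun v => v ∉ X)).card : ℝ) ^ 2 / 2 ^ n := by
  classical
  by_contra hcon
  push Not at hcon
  have hcard : (univ : Finset (Fin n → ZMod 2)).card = 2 ^ n := by
    simp [ZMod.card]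
  have hsum : ∑ p : Fin n → ZMod 2, ((univ.filter (fun v => v ∉ X ∧ v + p ∉ X)).card : ℝ) =
      ((univ.filter (fun v => v ∉ X)).card : ℝ) ^ 2 := by
    have h1 : ∀ p : Fin n → ZMod 2, ((univ.filter (fun v => v ∉ X ∧ v + p ∉ X)).card : ℝ) =
        ∑ v : Fin n → ZMod 2, (if v ∉ X then (1 : ℝ) else 0) * (if v + p ∉ X then 1 else 0) := by
      intro p
      rw [card_filter]
      push_cast
      apply sum_congr rfl
      intro v _
      by_cases h1 : v ∈ X <;> by_cases h2 : v + p ∈ X <;> simp [h1, h2]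
    simp_rw [h1]
    rw [sum_comm]
    have h2 : ∀ v : Fin n → ZMod 2,
        ∑ p : Fin n → ZMod 2, (if v ∉ X then (1 : ℝ) else 0) * (if v + p ∉ X then 1 else 0) =
          (if v ∉ X then (1 : ℝ) else 0) * ((univ.filter (fun v => v ∉ X)).card : ℝ) := by
      intro v
      rw [← mul_sum]
      congr 1
      rw [Fintype.sum_equiv (Equiv.addLeft v) (fun p => if v + p ∉ X then (1 : ℝ) else 0)
        (fun w => if w ∉ X then (1 : ℝ) else 0) (fun p => rfl)]
      rw [card_filter]
      push_cast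
      rfl
    simp_rw [h2]
    rw [← sum_mul, card_filter]
    push_cast
    rw [sq]
  have hlt : ∑ p : Fin n → ZMod 2, ((univ.filter (fun v => v ∉ X)).card : ℝ) ^ 2 / 2 ^ n <
      ∑ p : Fin n → ZMod 2, ((univ.filter (fun v => v ∉ X ∧ v + p ∉ X)).card : ℝ) :=
    sum_lt_sum_of_nonempty ⟨0, mem_univ _⟩ (fun p _ => hcon p)
  rw [hsum, sum_const, hcard, nsmul_eq_mul] at hlt
  push_cast at hlt
  have h2n : (2 : ℝ) ^ n ≠ 0 := by positivity
  rw [mul_div_cancel₀ _ h2n] at hlt
  exact lt_irrefl _ hlt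

theorem exists_perm {n : ℕ} (p : Fin n → ZMod 2) :
    ∃ (τ : Equiv.Perm (Fin n)) (m : Fin (n + 1)),
      ∀ b, (if (τ b).val < m.val then (1 : ZMod 2) else 0) = p b := by
  classical
  have hle : (univ.filter (fun b => p b = 1)).card ≤ n := by
    simpa using card_le_univ (univ.filter (fun b => p b = 1))
  set m := (univ.filter (fun b => p b = 1)).card with hm
  have hc : Fintype.card {b : Fin n // p b = 1} = Fintype.card {b : Fin n // b.val < m} := by
    rw [Fintype.card_subtype, Fintype.card_subtype, ← hm]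
    rw [Fin.card_filter_val_lt]
    omega
  let e : {b : Fin n // p b = 1} ≃ {b : Fin n // b.val < m} := Fintype.equivOfCardEq hc
  refine ⟨e.extendSubtype, ⟨m, by omega⟩, fun b => ?_⟩
  by_cases hb : p b = 1
  · have := e.extendSubtype_mem b hb
    simp only at this ⊢
    rw [if_pos this, hb]
  · have := e.extendSubtype_not_mem b hb
    simp only at this ⊢
    rw [if_neg this]
    have h01 : ∀ x : ZMod 2, x ≠ 1 → 0 = x := by decide
    exact h01 _ hb

theorem step {n d : ℕ} (σ : Fin d → Equiv.Perm (Fin n)) :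
    ∃ σ' : Fin (d + 1) → Equiv.Perm (Fin n),
      ((univ.filter (fun v => v ∉ univ.image (wd σ'))).card : ℝ) ≤
        ((univ.filter (fun v => v ∉ univ.image (wd σ))).card : ℝ) ^ 2 / 2 ^ n := by
  classical
  obtain ⟨p, hp⟩ := exists_translate (univ.image (wd σ))
  obtain ⟨τ, m, hτ⟩ := exists_perm p
  refine ⟨Fin.snoc σ τ, le_trans ?_ hp⟩
  norm_cast
  apply card_le_card
  intro v hv
  simp only [mem_filter, mem_univ, true_and, mem_image, not_exists] at hv ⊢
  constructor
  · intro j hj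
    apply hv (Fin.snoc j 0)
    rw [← hj]
    ext b
    simp only [wd, Fin.sum_univ_castSucc, Fin.snoc_castSucc, Fin.snoc_last]
    rw [if_neg (by simp), add_zero]
  · intro j hj
    apply hv (Fin.snoc j m)
    have h2 : ∀ x y : ZMod 2, x + y + y = x := by decide
    ext b
    simp only [wd, Fin.sum_univ_castSucc, Fin.snoc_castSucc, Fin.snoc_last]
    rw [hτ b]
    have := congrFun hj b
    simp only [wd, Pi.add_apply] at this
    rw [this, h2]

end T4

/-- [BD-4] -/
theorem amplify (n d K : ℕ) (hn : 1 ≤ n) (R : ℝ) (hR : 0 < R) (σ : Fin d → Equiv.Perm (Fin n))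
    (h : (2 : ℝ) ^ n ≤ ((univ.image (wd σ)).card : ℝ) * R) (hK : (n : ℝ) * R ≤ 2 ^ K) :
    ∃ σ' : Fin (d + K) → Equiv.Perm (Fin n), Function.Surjective (wd σ') := by
  classical
  have hcard : (univ : Finset (Fin n → ZMod 2)).card = 2 ^ n := by
    simp [ZMod.card]
  have h2n : (0 : ℝ) < 2 ^ n := by positivity
  have hadd : ∀ {d : ℕ} (σ : Fin d → Equiv.Perm (Fin n)),
      ((univ.image (wd σ)).card : ℝ) +
        ((univ.filter (fun v => v ∉ univ.image (wd σ))).card : ℝ) = 2 ^ n := by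
    intro d σ
    have h1 := card_filter_add_card_filter_not (s := (univ : Finset (Fin n → ZMod 2)))
      (fun v => v ∈ univ.image (wd σ))
    rw [hcard] at h1
    have h2 : univ.filter (fun v => v ∈ univ.image (wd σ)) = univ.image (wd σ) := by
      ext v; simp
    rw [h2] at h1
    exact_mod_cast h1
  have hR1 : 1 ≤ R := by
    have h1 := hadd σ
    have h2 : (0 : ℝ) ≤ ((univ.filter (fun v => v ∉ univ.image (wd σ))).card : ℝ) := by positivity
    have h3 : ((univ.image (wd σ)).card : ℝ) ≤ 2 ^ n := by linarith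
    by_contra hlt
    push Not at hlt
    have h4 : ((univ.image (wd σ)).card : ℝ) * R ≤ 2 ^ n * R := by gcongr
    nlinarith
  have h0 : 0 ≤ 1 - 1 / R := by
    have : 1 / R ≤ 1 := by rw [div_le_one hR]; exact hR1
    linarith
  have key : ∀ K : ℕ, ∃ σ' : Fin (d + K) → Equiv.Perm (Fin n),
      ((univ.filter (fun v => v ∉ univ.image (wd σ'))).card : ℝ) ≤
        2 ^ n * (1 - 1 / R) ^ (2 ^ K) := by
    intro K
    induction K with
    | zero =>
      refine ⟨σ, ?_⟩
      have h1 := hadd σ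
      have h3 : (2 : ℝ) ^ n / R ≤ ((univ.image (wd σ)).card : ℝ) := by
        rw [div_le_iff₀ hR]; exact h
      have h4 : (2 : ℝ) ^ n * (1 - 1 / R) ^ (2 ^ 0) = 2 ^ n - 2 ^ n / R := by
        simp; ring
      rw [h4]
      linarith
    | succ K ih =>
      obtain ⟨σ₁, h₁⟩ := ih
      obtain ⟨σ₂, h₂⟩ := T4.step σ₁
      refine ⟨σ₂, h₂.trans ?_⟩
      rw [div_le_iff₀ h2n]
      calc ((univ.filter (fun v => v ∉ univ.image (wd σ₁))).card : ℝ) ^ 2
          ≤ (2 ^ n * (1 - 1 / R) ^ (2 ^ K)) ^ 2 := by gcongr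
        _ = 2 ^ n * (1 - 1 / R) ^ (2 ^ (K + 1)) * 2 ^ n := by
            rw [pow_succ 2 K, pow_mul, mul_pow]; ring
  obtain ⟨σ', hσ'⟩ := key K
  refine ⟨σ', ?_⟩
  have hexp : (1 - 1 / R) ^ (2 ^ K) ≤ Real.exp (-(n : ℝ)) := by
    have h1 : 1 - 1 / R ≤ Real.exp (-(1 / R)) := by
      have := Real.add_one_le_exp (-(1 / R)); linarith
    calc (1 - 1 / R) ^ (2 ^ K) ≤ (Real.exp (-(1 / R))) ^ (2 ^ K) := by gcongr
      _ = Real.exp (-(2 ^ K / R)) := by
          rw [← Real.exp_nat_mul]; congr 1; push_cast; ring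
      _ ≤ Real.exp (-(n : ℝ)) := by
          apply Real.exp_le_exp.mpr
          have : (n : ℝ) ≤ 2 ^ K / R := by rw [le_div_iff₀ hR]; exact hK
          linarith
  have hlt : ((univ.filter (fun v => v ∉ univ.image (wd σ'))).card : ℝ) < 1 := by
    have he : (2 : ℝ) < Real.exp 1 := by
      have := Real.exp_one_gt_d9; linarith
    have he2 : (2 : ℝ) ^ n < Real.exp n := by
      have : Real.exp (n : ℝ) = (Real.exp 1) ^ n := by
        rw [← Real.exp_nat_mul]; simp
      rw [this]
      exact pow_lt_pow_left₀ he (by norm_num) (by omega)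
    calc ((univ.filter (fun v => v ∉ univ.image (wd σ'))).card : ℝ)
        ≤ 2 ^ n * (1 - 1 / R) ^ (2 ^ K) := hσ'
      _ ≤ 2 ^ n * Real.exp (-(n : ℝ)) := by gcongr
      _ < Real.exp n * Real.exp (-(n : ℝ)) := by
          apply mul_lt_mul_of_pos_right he2 (Real.exp_pos _)
      _ = 1 := by rw [← Real.exp_add]; simp
  have hz : (univ.filter (fun v => v ∉ univ.image (wd σ'))).card = 0 := by
    have : ((univ.filter (fun v => v ∉ univ.image (wd σ'))).card : ℝ) < ((1 : ℕ) : ℝ) := by
      simpa using hlt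
    have := Nat.cast_lt.mp this
    omega
  intro v
  by_contra hv
  have : v ∈ univ.filter (fun v => v ∉ univ.image (wd σ')) := by
    simp only [mem_filter, mem_univ, true_and, mem_image, not_exists]
    intro j hj
    exact hv ⟨j, hj⟩
  rw [card_eq_zero.mp hz] at this
  simp at this

end Pool.Agent.BoolDim
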