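import Pool.Agent.BoolDim.Defs

/-!
# [BD-5] Boolean realizers from a covering family of permutations
-/

open Finset

namespace Pool.Agent.BoolDim

namespace BlockFive

/-- It suffices to have a family of linear orders, indexed by any finite type, whose comparison
vectors determine the order relation. -/
theorem realizer_of_family {X : Type} [PartialOrder X] {ι : Type} [Fintype ι] {d : ℕ}
    (hd : Fintype.card ι = d) (L : ι → LinearOrder X)
    (h : ∀ x y x' y' : X, x ≠ y → x' ≠ y' → (∀ i, (L i).lt x y ↔ (L i).lt x' y') →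
      x < y → x' < y') :
    HasBoolRealizer X d := by
  classical
  obtain ⟨e⟩ : Nonempty (ι ≃ Fin d) := ⟨Fintype.equivFinOfCardEq hd⟩
  refine ⟨fun i => L (e.symm i), fun v => decide (∃ x y : X, x ≠ y ∧
    cmpVec (fun i => L (e.symm i)) x y = v ∧ x < y), ?_⟩
  intro x y hxy
  constructor
  · intro hlt
    simp only [decide_eq_true_eq]
    exact ⟨x, y, hxy, rfl, hlt⟩
  · intro ht
    simp only [decide_eq_true_eq] at ht
    obtain ⟨x', y', hne, hv, hlt⟩ := ht
    refine h x' y' x y hne hxy ?_ hlt
    intro i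
    have h5 : L (e.symm (e i)) = L i := by rw [Equiv.symm_apply_apply]
    have h6 := congrFun hv (e i)
    simp only [cmpVec, decide_eq_decide] at h6
    rw [← h5]
    exact h6

/-- The linear order on `X` that sorts by `p` first and by `c (p x) * o x` second. -/
@[reducible] noncomputable def ordPC {X : Type} (o : X → ℤ) (ho : Function.Injective o) (p : X → ℤ)
    (c : ℤ → ℤ) (hc : ∀ z, c z ≠ 0) : LinearOrder X :=
  LinearOrder.lift' (fun x => toLex (p x, c (p x) * o x)) (by
    intro x y hxy
    have h1 : (p x, c (p x) * o x) = (p y, c (p y) * o y) := hxy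
    rw [Prod.mk.injEq] at h1
    obtain ⟨h2, h3⟩ := h1
    rw [h2] at h3
    exact ho (mul_left_cancel₀ (hc _) h3))

theorem ordPC_lt {X : Type} (o : X → ℤ) (ho : Function.Injective o) (p : X → ℤ)
    (c : ℤ → ℤ) (hc : ∀ z, c z ≠ 0) (x y : X) :
    (ordPC o ho p c hc).lt x y ↔
      p x < p y ∨ (p x = p y ∧ c (p x) * o x < c (p y) * o y) := by
  have : (ordPC o ho p c hc).lt x y ↔
      toLex (p x, c (p x) * o x) < toLex (p y, c (p y) * o y) := Iff.rfl
  rw [this, Prod.Lex.toLex_lt_toLex]

/-- The bit of a number as an integer. -/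
def bt (m l : ℕ) : ℤ := if m.testBit l then 1 else 0

theorem bt_eq_iff (m m' l : ℕ) : bt m l = bt m' l ↔ m.testBit l = m'.testBit l := by
  unfold bt
  cases m.testBit l <;> cases m'.testBit l <;> simp

theorem bt_cases (m l : ℕ) : bt m l = 0 ∨ bt m l = 1 := by
  unfold bt
  split_ifs <;> simp

/-- The three sign patterns. -/
def sg (t : Fin 3) (z : ℤ) : ℤ := if t = 0 then 1 else if t = 1 then -1 else
  if z = 0 then 1 else -1

theorem sg_ne (t : Fin 3) (z : ℤ) : sg t z ≠ 0 := by
  unfold sg
  split_ifs <;> norm_num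

/-- The bits are determined by the four comparisons. -/
theorem bits_determined (ox oy ox' oy' bx b_y bx' by' : ℤ) (h1 : ox ≠ oy) (h2 : ox' ≠ oy')
    (hbx : bx = 0 ∨ bx = 1) (hby : b_y = 0 ∨ b_y = 1) (hbx' : bx' = 0 ∨ bx' = 1)
    (hby' : by' = 0 ∨ by' = 1)
    (hO : ox < oy ↔ ox' < oy')
    (hS : ∀ t : Fin 3, (bx < b_y ∨ (bx = b_y ∧ sg t bx * ox < sg t b_y * oy)) ↔
      (bx' < by' ∨ (bx' = by' ∧ sg t bx' * ox' < sg t by' * oy'))) :
    bx = bx' ∧ b_y = by' := by
  have s0 := hS 0
  have s1 := hS 1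
  have s2 := hS 2
  simp only [sg] at s0 s1 s2
  rcases hbx with rfl | rfl <;> rcases hby with rfl | rfl <;> rcases hbx' with rfl | rfl <;>
    rcases hby' with rfl | rfl <;> simp at s0 s1 s2 ⊢ <;> omega

end BlockFive

open BlockFive in
/-- [BD-5] -/
theorem realizer_of_cover (n D k : ℕ) (σ : Fin D → Equiv.Perm (Fin n))
    (hσ : Function.Surjective (wd σ)) (hk : n + 1 ≤ 2 ^ k)
    (X : Type) [Finite X] [PartialOrder X] (hX : IsAntichainPlus X n) :
    HasBoolRealizer X (D + (1 + 3 * k)) := by
  classical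
  obtain ⟨A, B, hAB, -, hanti, hcard⟩ := hX
  have hA : ∀ x, x ∉ B → x ∈ A := by
    intro x hx
    have : x ∈ A ∪ B := by rw [hAB]; trivial
    exact this.resolve_right hx
  obtain ⟨e⟩ : Nonempty (↥B ≃ Fin n) := by
    have : Nat.card ↥B = n := by rw [Nat.card_coe_set_eq]; exact hcard
    exact ⟨Finite.equivFinOfCardEq this⟩
  -- an injective numbering
  obtain ⟨o, ho⟩ : ∃ o : X → ℤ, Function.Injective o := by
    refine ⟨fun x => ((Finite.equivFin X x).val : ℤ), ?_⟩
    intro x y hxy
    have h1 : ((Finite.equivFin X x).val : ℤ) = ((Finite.equivFin X y).val : ℤ) := hxy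
    have h2 : (Finite.equivFin X x).val = (Finite.equivFin X y).val := by exact_mod_cast h1
    exact (Finite.equivFin X).injective (Fin.ext h2)
  -- keys
  let key : X → ℕ := fun x => if h : x ∈ B then (e ⟨x, h⟩).val else n
  have key_B : ∀ x (h : x ∈ B), key x = (e ⟨x, h⟩).val := fun x h => by
    simp only [key, dif_pos h]
  have key_A : ∀ x, x ∉ B → key x = n := fun x h => by
    simp only [key, dif_neg h]
  have key_lt_iff : ∀ x, x ∈ B ↔ key x < n := by
    intro x
    by_cases h : x ∈ B
    · rw [key_B x h]; exact ⟨fun _ => (e ⟨x, h⟩).isLt, fun _ => h⟩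
    · rw [key_A x h]; exact ⟨fun h' => absurd h' h, fun h' => absurd h' (lt_irrefl _)⟩
  have key_le : ∀ x, key x < 2 ^ k := by
    intro x
    by_cases h : x ∈ B
    · have := (key_lt_iff x).1 h; omega
    · rw [key_A x h]; omega
  have key_inj : ∀ x y, x ∈ B → key x = key y → x = y := by
    intro x y hx hxy
    have hy : y ∈ B := by rw [key_lt_iff, ← hxy, ← key_lt_iff]; exact hx
    rw [key_B x hx, key_B y hy] at hxy
    have := e.injective (Fin.ext hxy)
    simpa using this
  -- positions of the antichain points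
  have hj : ∀ x : X, ∃ j : Fin D → Fin (n + 1), wd σ j =
      fun b => if (x < (e.symm b : X) ∨ (e.symm b : X) < x) then 1 else 0 := fun x => hσ _
  choose j hj using hj
  let pos : Fin D → X → ℤ := fun i x =>
    if h : x ∈ B then 2 * ((σ i (e ⟨x, h⟩)).val : ℤ) + 1 else 2 * ((j x i).val : ℤ)
  have pos_B : ∀ i x (h : x ∈ B), pos i x = 2 * ((σ i (e ⟨x, h⟩)).val : ℤ) + 1 := fun i x h => by
    simp only [pos, dif_pos h]
  have pos_A : ∀ i x, x ∉ B → pos i x = 2 * ((j x i).val : ℤ) := fun i x h => by
    simp only [pos, dif_neg h]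
  -- the family of orders
  let L : Fin D ⊕ (Unit ⊕ (Fin 3 × Fin k)) → LinearOrder X := fun q =>
    match q with
    | Sum.inl i => ordPC o ho (pos i) (fun _ => 1) (fun _ => one_ne_zero)
    | Sum.inr (Sum.inl _) => ordPC o ho (fun _ => 0) (fun _ => 1) (fun _ => one_ne_zero)
    | Sum.inr (Sum.inr (t, l)) => ordPC o ho (fun x => bt (key x) l) (sg t) (sg_ne t)
  refine realizer_of_family (ι := Fin D ⊕ (Unit ⊕ (Fin 3 × Fin k))) (by simp) L ?_
  intro x y x' y' hxy hxy' hL hlt
  have hoxy : o x ≠ o y := fun h => hxy (ho h)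
  have hoxy' : o x' ≠ o y' := fun h => hxy' (ho h)
  have hO : o x < o y ↔ o x' < o y' := by
    have := hL (Sum.inr (Sum.inl ()))
    simp only [L, ordPC_lt] at this
    simpa using this
  have hbits : ∀ l : Fin k, bt (key x) l = bt (key x') l ∧ bt (key y) l = bt (key y') l := by
    intro l
    refine bits_determined (o x) (o y) (o x') (o y') _ _ _ _ hoxy hoxy' (bt_cases _ _)
      (bt_cases _ _) (bt_cases _ _) (bt_cases _ _) hO ?_
    intro t
    have := hL (Sum.inr (Sum.inr (t, l)))
    simp only [L, ordPC_lt] at this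
    exact this
  have hkey : ∀ m m' : ℕ, m < 2 ^ k → m' < 2 ^ k → (∀ l : Fin k, bt m l = bt m' l) → m = m' := by
    intro m m' hm hm' hb
    apply Nat.eq_of_testBit_eq
    intro i
    by_cases hi : i < k
    · exact (bt_eq_iff _ _ _).1 (hb ⟨i, hi⟩)
    · have h2 : 2 ^ k ≤ 2 ^ i := Nat.pow_le_pow_right (by norm_num) (by omega)
      rw [Nat.testBit_lt_two_pow (lt_of_lt_of_le hm h2),
        Nat.testBit_lt_two_pow (lt_of_lt_of_le hm' h2)]
  have hkx : key x = key x' := hkey _ _ (key_le x) (key_le x') (fun l => (hbits l).1)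
  have hky : key y = key y' := hkey _ _ (key_le y) (key_le y') (fun l => (hbits l).2)
  have hmain : ∀ i : Fin D, (pos i x < pos i y ∨ (pos i x = pos i y ∧ o x < o y)) ↔
      (pos i x' < pos i y' ∨ (pos i x' = pos i y' ∧ o x' < o y')) := by
    intro i
    have := hL (Sum.inl i)
    simp only [L, ordPC_lt, one_mul] at this
    exact this
  have hS : ∀ (a : X) (b : X) (hb : b ∈ B), (a < b ∨ b < a) ↔
      (∑ i, if (σ i (e ⟨b, hb⟩)).val < (j a i).val then (1 : ZMod 2) else 0) = 1 := by
    intro a b hb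
    have h1 := congrFun (hj a) (e ⟨b, hb⟩)
    simp only [wd, Equiv.symm_apply_apply] at h1
    rw [h1]
    by_cases h : (a < b ∨ b < a) <;> simp [h]
  by_cases hx : x ∈ B
  · have e1 : x = x' := key_inj x x' hx hkx
    subst e1
    by_cases hy : y ∈ B
    · have e2 : y = y' := key_inj y y' hy hky
      subst e2
      exact hlt
    · have hy' : y' ∉ B := by rw [key_lt_iff, ← hky, ← key_lt_iff]; exact hy
      -- the decoded parities agree
      have hpar : (y < x ∨ x < y) ↔ (y' < x ∨ x < y') := by
        rw [hS y x hx, hS y' x hx]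
        have : (∑ i, if (σ i (e ⟨x, hx⟩)).val < (j y i).val then (1 : ZMod 2) else 0) =
            ∑ i, if (σ i (e ⟨x, hx⟩)).val < (j y' i).val then (1 : ZMod 2) else 0 := by
          apply Finset.sum_congr rfl
          intro i _
          have h1 := hmain i
          rw [pos_B i x hx, pos_A i y hy, pos_A i y' hy'] at h1
          have h2 : (σ i (e ⟨x, hx⟩)).val < (j y i).val ↔
              (σ i (e ⟨x, hx⟩)).val < (j y' i).val := by omega
          simp only [h2]
        rw [this]
      rcases hpar.1 (Or.inr hlt) with h | h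
      · exfalso
        have h3 : y' < y := lt_trans h hlt
        exact hanti (hA y' hy') (hA y hy) (ne_of_lt h3) h3.le
      · exact h
  · have hx' : x' ∉ B := by rw [key_lt_iff, ← hkx, ← key_lt_iff]; exact hx
    by_cases hy : y ∈ B
    · have e2 : y = y' := key_inj y y' hy hky
      subst e2
      have hpar : (x < y ∨ y < x) ↔ (x' < y ∨ y < x') := by
        rw [hS x y hy, hS x' y hy]
        have : (∑ i, if (σ i (e ⟨y, hy⟩)).val < (j x i).val then (1 : ZMod 2) else 0) =
            ∑ i, if (σ i (e ⟨y, hy⟩)).val < (j x' i).val then (1 : ZMod 2) else 0 := by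
          apply Finset.sum_congr rfl
          intro i _
          have h1 := hmain i
          rw [pos_B i y hy, pos_A i x hx, pos_A i x' hx'] at h1
          have h2 : (σ i (e ⟨y, hy⟩)).val < (j x i).val ↔
              (σ i (e ⟨y, hy⟩)).val < (j x' i).val := by omega
          simp only [h2]
        rw [this]
      rcases hpar.1 (Or.inl hlt) with h | h
      · exact h
      · exfalso
        have h3 : x < x' := lt_trans hlt h
        exact hanti (hA x hx) (hA x' hx') (ne_of_lt h3) h3.le
    · exfalso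
      exact hanti (hA x hx) (hA y hy) hxy hlt.le

end Pool.Agent.BoolDim
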