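import Pool.Agent.BoolDim.Defs

/-!
# BD-6: the full poset
-/

open Finset

namespace Pool.Agent.BoolDim

theorem Full.lt_iff {n : ℕ} (x y : Full n) : x < y ↔ ∃ S b, x = Full.set S ∧ y = Full.pt b ∧ b ∈ S := by
  rw [lt_iff_le_and_ne]
  change Full.le x y ∧ x ≠ y ↔ _
  cases x with
  | set S =>
    cases y with
    | set T => simp [Full.le]
    | pt b => simp [Full.le]
  | pt b =>
    cases y with
    | set T => simp [Full.le]
    | pt c => simp [Full.le]

theorem Full.isAntichainPlus (n : ℕ) : IsAntichainPlus (Full n) n := by
  refine ⟨Set.range Full.set, Set.range Full.pt, ?_, ?_, ?_, ?_⟩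
  · ext x
    cases x <;> simp
  · ext x
    cases x <;> simp
  · rintro _ ⟨S, rfl⟩ _ ⟨T, rfl⟩ hne hle
    change Full.le _ _ at hle
    simp only [Full.le] at hle
    exact hne (by rw [hle])
  · rw [← Set.image_univ, Set.ncard_image_of_injective _ (fun a b h => Full.pt.inj h),
      Set.ncard_univ, Nat.card_fin]

instance Full.finite (n : ℕ) : Finite (Full n) := by
  have : Function.Surjective (fun x : Finset (Fin n) ⊕ Fin n =>
      (Sum.casesOn x Full.set Full.pt : Full n)) := by
    intro x
    cases x with
    | set S => exact ⟨Sum.inl S, rfl⟩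
    | pt b => exact ⟨Sum.inr b, rfl⟩
  exact Finite.of_surjective _ this

/-- rank permutation of a linear order on `Fin n` -/
theorem exists_rank {n : ℕ} (r : Fin n → Fin n → Prop) [DecidableRel r]
    (hirr : ∀ a, ¬ r a a) (htr : ∀ a b c, r a b → r b c → r a c)
    (htot : ∀ a b, a ≠ b → r a b ∨ r b a) :
    ∃ s : Equiv.Perm (Fin n), ∀ b, (s b).val = (univ.filter (fun c => r c b)).card := by
  classical
  have hlt : ∀ b, (univ.filter (fun c => r c b)).card < n := by
    intro b
    have : univ.filter (fun c => r c b) ⊂ univ := by
      rw [Finset.ssubset_univ_iff]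
      intro h
      have : b ∈ univ.filter (fun c => r c b) := by rw [h]; exact Finset.mem_univ _
      exact hirr b (Finset.mem_filter.mp this).2
    have := Finset.card_lt_card this
    simpa using this
  set φ : Fin n → Fin n := fun b => ⟨(univ.filter (fun c => r c b)).card, hlt b⟩ with hφ
  have hmono : ∀ a b, r a b → (φ a).val < (φ b).val := by
    intro a b hab
    change (univ.filter (fun c => r c a)).card < (univ.filter (fun c => r c b)).card
    apply Finset.card_lt_card
    rw [Finset.ssubset_iff_of_subset]
    · exact ⟨a, by simp [hab], by simp [hirr]⟩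
    · intro c hc
      simp only [Finset.mem_filter, Finset.mem_univ, true_and] at hc ⊢
      exact htr c a b hc hab
  have hinj : Function.Injective φ := by
    intro a b h
    by_contra hne
    rcases htot a b hne with h' | h'
    · have := hmono a b h'; rw [h] at this; exact lt_irrefl _ this
    · have := hmono b a h'; rw [h] at this; exact lt_irrefl _ this
  exact ⟨Equiv.ofBijective φ (Finite.injective_iff_bijective.mp hinj), fun b => rfl⟩

theorem lo_irrefl {X : Type} (L : LinearOrder X) (a : X) : ¬ L.lt a a := by
  let _ := L
  exact lt_irrefl a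

theorem lo_trans {X : Type} (L : LinearOrder X) (a b c : X) (h : L.lt a b) (h' : L.lt b c) :
    L.lt a c := by
  let _ := L
  exact lt_trans h h'

theorem lo_total {X : Type} (L : LinearOrder X) (a b : X) (h : a ≠ b) :
    L.lt a b ∨ L.lt b a := by
  let _ := L
  exact lt_or_gt_of_ne h

theorem Full.surj_of_realizer (n d : ℕ) (h : HasBoolRealizer (Full n) d) :
    ∃ (σ : Fin d → Equiv.Perm (Fin n)) (g : Fin n → (Fin d → Bool) → Bool),
      Function.Surjective (gw σ g) := by
  classical
  obtain ⟨L, τ, hτ⟩ := h
  have hrank : ∀ i : Fin d, ∃ s : Equiv.Perm (Fin n), ∀ b, (s b).val =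
      (univ.filter (fun c : Fin n => (L i).lt (Full.pt c) (Full.pt b))).card := by
    intro i
    refine exists_rank (fun c b => (L i).lt (Full.pt c) (Full.pt b)) ?_ ?_ ?_
    · intro a; exact lo_irrefl (L i) (Full.pt a)
    · intro a b c; exact lo_trans (L i) _ _ _
    · intro a b hab
      exact lo_total (L i) _ _ (fun h => hab (Full.pt.inj h))
  choose σ hσ using hrank
  refine ⟨σ, fun _ v => τ (fun i => !(v i)), ?_⟩
  intro w
  set S : Finset (Fin n) := univ.filter (fun b => w b = true) with hS
  set j : Fin d → Fin (n + 1) := fun i =>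
    ⟨(univ.filter (fun c : Fin n => (L i).lt (Full.pt c) (Full.set S))).card, by
      have := Finset.card_filter_le (univ : Finset (Fin n)) (fun c : Fin n => (L i).lt (Full.pt c) (Full.set S))
      simp only [Finset.card_univ, Fintype.card_fin] at this
      omega⟩ with hj
  refine ⟨j, ?_⟩
  have key : ∀ i b, (σ i b).val < (j i).val ↔ (L i).lt (Full.pt b) (Full.set S) := by
    intro i b
    rw [hσ]
    change (univ.filter (fun c : Fin n => (L i).lt (Full.pt c) (Full.pt b))).card <
      (univ.filter (fun c : Fin n => (L i).lt (Full.pt c) (Full.set S))).card ↔ _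
    constructor
    · intro hlt
      by_contra hcon
      have hle : (L i).lt (Full.set S : Full n) (Full.pt b) :=
        (lo_total (L i) (Full.set S) (Full.pt b) (by simp)).resolve_right hcon
      apply absurd hlt
      rw [not_lt]
      apply Finset.card_le_card
      intro c hc
      simp only [Finset.mem_filter, Finset.mem_univ, true_and] at hc ⊢
      exact lo_trans (L i) _ _ _ hc hle
    · intro hlt
      apply Finset.card_lt_card
      rw [Finset.ssubset_iff_of_subset]
      · exact ⟨b, by simp only [Finset.mem_filter, Finset.mem_univ, true_and]; exact hlt, by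
          simp only [Finset.mem_filter, Finset.mem_univ, true_and]; exact lo_irrefl (L i) _⟩
      · intro c hc
        simp only [Finset.mem_filter, Finset.mem_univ, true_and] at hc ⊢
        exact lo_trans (L i) _ _ _ hc hlt
  funext b
  have hne : (Full.set S : Full n) ≠ Full.pt b := by simp
  have h1 := hτ (Full.set S) (Full.pt b) hne
  have h2 : cmpVec L (Full.set S) (Full.pt b) = fun i => !(decide ((σ i b).val < (j i).val)) := by
    funext i
    unfold cmpVec
    rw [decide_eq_decide.mpr (key i b)]
    have : (L i).lt (Full.set S) (Full.pt b) ↔ ¬ (L i).lt (Full.pt b) (Full.set S) := by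
      constructor
      · intro h h'; exact lo_irrefl (L i) _ (lo_trans (L i) _ _ _ h h')
      · intro h; exact (lo_total (L i) _ _ hne).resolve_right h
    rw [← decide_not]
    rw [decide_eq_decide]
    exact this
  rw [h2, Full.lt_iff] at h1
  change τ (fun i => !(decide ((σ i b).val < (j i).val))) = w b
  have h3 : (∃ S' b', (Full.set S : Full n) = Full.set S' ∧ (Full.pt b : Full n) = Full.pt b' ∧ b' ∈ S') ↔ w b = true := by
    constructor
    · rintro ⟨S', b', h, h', h''⟩
      cases h; cases h'
      exact (Finset.mem_filter.mp h'').2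
    · intro h
      exact ⟨S, b, rfl, rfl, by simp [hS, h]⟩
  rw [h3] at h1
  cases hw : w b
  · rw [hw] at h1
    cases hτ' : τ (fun i => !(decide ((σ i b).val < (j i).val)))
    · rfl
    · rw [hτ'] at h1; simp at h1
  · exact h1.mp hw

end Pool.Agent.BoolDim
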