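import Pool.Agent.BoolDim.T7a

/-!
# BD-7: the bound for the number of words
-/

open Finset

namespace Pool.Agent.BoolDim

namespace Box

/-- A large cut exists. -/
theorem exists_cut {ι : Type} [DecidableEq ι] (a : ι → ι → ℕ) (ha : ∀ i j, a i j = a j i)
    (s : Finset ι) : ∃ I ⊆ s, ∑ i ∈ s, ∑ j ∈ s.erase i, a i j ≤ 4 * ∑ i ∈ I, ∑ j ∈ s \ I, a i j := by
  induction s using Finset.induction_on with
  | empty => exact ⟨∅, by simp, by simp⟩
  | insert x s hx ih =>
    obtain ⟨I, hI, h⟩ := ih
    have hxI : x ∉ I := fun h => hx (hI h)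
    have hleft : ∑ i ∈ insert x s, ∑ j ∈ (insert x s).erase i, a i j =
        2 * ∑ j ∈ s, a x j + ∑ i ∈ s, ∑ j ∈ s.erase i, a i j := by
      rw [Finset.sum_insert hx, Finset.erase_insert hx]
      have : ∀ i ∈ s, ∑ j ∈ (insert x s).erase i, a i j = a i x + ∑ j ∈ s.erase i, a i j := by
        intro i hi
        have hne : x ≠ i := fun h => hx (h ▸ hi)
        rw [Finset.erase_insert_of_ne hne, Finset.sum_insert]
        intro h'; exact hx (Finset.mem_of_mem_erase h')
      rw [Finset.sum_congr rfl this, Finset.sum_add_distrib]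
      have : ∑ i ∈ s, a i x = ∑ j ∈ s, a x j := Finset.sum_congr rfl (fun i _ => ha i x)
      omega
    have hW : ∑ j ∈ s, a x j = ∑ j ∈ s \ I, a x j + ∑ j ∈ I, a x j :=
      (Finset.sum_sdiff hI).symm
    have hcompl : s \ I ⊆ s := Finset.sdiff_subset
    rcases le_total (∑ j ∈ I, a x j) (∑ j ∈ s \ I, a x j) with hcase | hcase
    · refine ⟨insert x I, Finset.insert_subset_insert _ hI, ?_⟩
      rw [hleft, Finset.sum_insert hxI]
      have e1 : insert x s \ insert x I = s \ I := by
        ext y; simp only [Finset.mem_sdiff, Finset.mem_insert, not_or]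
        constructor
        · rintro ⟨rfl | h1, h2, h3⟩
          · exact absurd rfl h2
          · exact ⟨h1, h3⟩
        · rintro ⟨h1, h2⟩
          exact ⟨Or.inr h1, fun h => hx (h ▸ h1), h2⟩
      rw [e1]
      omega
    · refine ⟨I, hI.trans (Finset.subset_insert _ _), ?_⟩
      rw [hleft]
      have e1 : insert x s \ I = insert x (s \ I) := by
        rw [Finset.insert_sdiff_of_notMem _ hxI]
      rw [e1]
      have e2 : ∀ i ∈ I, ∑ j ∈ insert x (s \ I), a i j = a i x + ∑ j ∈ s \ I, a i j := by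
        intro i _
        rw [Finset.sum_insert]
        intro h'; exact hx (Finset.mem_sdiff.mp h').1
      rw [Finset.sum_congr rfl e2, Finset.sum_add_distrib]
      have : ∑ i ∈ I, a i x = ∑ j ∈ I, a x j := Finset.sum_congr rfl (fun i _ => ha i x)
      omega

/-- Cauchy-Schwarz for intersections. -/
theorem sum_inter {ι B : Type} [Fintype ι] [DecidableEq ι] [Fintype B] [DecidableEq B]
    (Bs : ι → Finset B) (h : ℕ) (hB : ∀ i, (Bs i).card = h) :
    (Fintype.card ι * h) ^ 2 ≤ Fintype.card B * ∑ i, ∑ j, (Bs i ∩ Bs j).card := by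
  have h1 : ∑ i, ∑ j, (Bs i ∩ Bs j).card = ∑ b, (∑ i, if b ∈ Bs i then 1 else 0) ^ 2 := by
    have e : ∀ i j, (Bs i ∩ Bs j).card = ∑ b, (if b ∈ Bs i then 1 else 0) * (if b ∈ Bs j then 1 else 0) := by
      intro i j
      rw [Finset.card_eq_sum_ones, ← Finset.sum_filter_add_sum_filter_not univ (fun b => b ∈ Bs i ∩ Bs j)]
      have : ∑ b ∈ univ.filter (fun b => ¬ b ∈ Bs i ∩ Bs j), ((if b ∈ Bs i then 1 else 0) * (if b ∈ Bs j then 1 else 0) : ℕ) = 0 := by
        refine Finset.sum_eq_zero (fun b hb => ?_)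
        simp only [Finset.mem_filter, Finset.mem_univ, true_and, Finset.mem_inter, not_and] at hb
        by_cases hi : b ∈ Bs i
        · simp [hb hi]
        · simp [hi]
      rw [this, add_zero]
      have hf : univ.filter (fun b => b ∈ Bs i ∩ Bs j) = Bs i ∩ Bs j := by ext b; simp
      rw [hf]
      refine Finset.sum_congr rfl (fun b hb => ?_)
      have := Finset.mem_inter.mp hb
      simp [this.1, this.2]
    simp only [e]
    calc ∑ i, ∑ j, ∑ b, (if b ∈ Bs i then 1 else 0) * (if b ∈ Bs j then 1 else 0)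
        = ∑ i, ∑ b, ∑ j, (if b ∈ Bs i then 1 else 0) * (if b ∈ Bs j then 1 else 0) :=
          Finset.sum_congr rfl (fun i _ => Finset.sum_comm)
      _ = ∑ b, ∑ i, ∑ j, (if b ∈ Bs i then 1 else 0) * (if b ∈ Bs j then 1 else 0) := Finset.sum_comm
      _ = _ := by
          refine Finset.sum_congr rfl (fun b _ => ?_)
          rw [sq, Finset.sum_mul_sum]
  rw [h1]
  have h2 : Fintype.card ι * h = ∑ b : B, ∑ i, if b ∈ Bs i then 1 else 0 := by
    rw [Finset.sum_comm]
    have : ∀ i, ∑ b : B, (if b ∈ Bs i then 1 else 0) = h := by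
      intro i
      rw [← hB i, Finset.card_eq_sum_ones, Finset.sum_ite_mem, Finset.univ_inter]
    simp [this]
  rw [h2]
  exact_mod_cast sq_sum_le_card_mul_sum_sq (s := (univ : Finset B)) (f := fun b => ∑ i, if b ∈ Bs i then 1 else 0)

end Box

/-- the crossed element of the box `u` in the order given by the permutation `s` -/
def crossed {n : ℕ} (s : Equiv.Perm (Fin n)) (u : Fin (n / 2 + 1)) : Option (Fin n) :=
  if h : 2 * u.val < n then some (s.symm ⟨2 * u.val, h⟩) else none

theorem crossed_eq_some {n : ℕ} (s : Equiv.Perm (Fin n)) (u : Fin (n / 2 + 1)) (b : Fin n) :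
    crossed s u = some b ↔ (s b).val = 2 * u.val := by
  unfold crossed
  split_ifs with h
  · rw [Option.some.injEq, Equiv.symm_apply_eq]
    constructor
    · intro h'; rw [← h']
    · intro h'; ext; exact h'.symm
  · simp only [false_iff, reduceCtorEq]
    intro h'
    exact h (h' ▸ (s b).isLt)

theorem card_Bs {n d : ℕ} (σ : Fin d → Equiv.Perm (Fin n)) (i : Fin d) :
    (Box.Bs (fun i => crossed (σ i)) i).card = (n + 1) / 2 := by
  have h1 : Box.Bs (fun i => crossed (σ i)) i =
      ((univ : Finset (Fin n)).filter (fun r => r.val % 2 = 0)).map (σ i).symm.toEmbedding := by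
    ext b
    simp only [Box.Bs, Finset.mem_filter, Finset.mem_univ, true_and, crossed_eq_some,
      Finset.mem_map, Equiv.coe_toEmbedding]
    constructor
    · rintro ⟨x, hx⟩
      exact ⟨σ i b, by omega, by simp⟩
    · rintro ⟨r, hr, rfl⟩
      refine ⟨⟨r.val / 2, by have := r.isLt; omega⟩, ?_⟩
      simp only [Equiv.apply_symm_apply]
      omega
  rw [h1, Finset.card_map]
  have : ((univ : Finset (Fin n)).filter (fun r => r.val % 2 = 0)).card =
      ((range n).filter (fun r => r % 2 = 0)).card := by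
    rw [← Finset.card_map ⟨Fin.val, Fin.val_injective⟩]
    congr 1
    ext r
    simp only [Finset.mem_map, Finset.mem_filter, Finset.mem_univ, true_and,
      Function.Embedding.coeFn_mk, Finset.mem_range]
    constructor
    · rintro ⟨a, ha, rfl⟩; exact ⟨a.isLt, ha⟩
    · rintro ⟨h1, h2⟩; exact ⟨⟨r, h1⟩, h2, rfl⟩
  rw [this]
  clear this h1
  induction n with
  | zero => simp
  | succ n ih =>
    have ih' : ((range n).filter (fun r => r % 2 = 0)).card = (n + 1) / 2 := by
      clear ih
      induction n with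
      | zero => simp
      | succ n ih =>
        rw [Finset.range_add_one, Finset.filter_insert]
        split_ifs with h
        · rw [Finset.card_insert_of_notMem (by simp), ih (fun _ => Equiv.refl _)]; omega
        · rw [ih (fun _ => Equiv.refl _)]; omega
    rw [Finset.range_add_one, Finset.filter_insert]
    split_ifs with h
    · rw [Finset.card_insert_of_notMem (by simp), ih']; omega
    · rw [ih']; omega

/-- Number of words versus boxes. -/
theorem card_image_le_sum (n d : ℕ) (σ : Fin d → Equiv.Perm (Fin n))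
    (g : Fin n → (Fin d → Bool) → Bool) :
    (univ.image (gw σ g)).card ≤
      ∑ u : Fin d → Fin (n / 2 + 1), 2 ^ (Box.hit (fun i => crossed (σ i)) u).card := by
  classical
  -- base position of a box
  set j0 : (Fin d → Fin (n / 2 + 1)) → (Fin d → Fin (n + 1)) :=
    fun u i => ⟨2 * (u i).val, by have := (u i).isLt; omega⟩ with hj0
  set fl : (Fin d → Fin (n / 2 + 1)) → Finset (Fin n) → (Fin n → Bool) :=
    fun u T b => if b ∈ T then !(gw σ g (j0 u) b) else gw σ g (j0 u) b with hfl
  have hsub : univ.image (gw σ g) ⊆ univ.biUnion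
      (fun u => ((Box.hit (fun i => crossed (σ i)) u).powerset).image (fl u)) := by
    intro w hw
    obtain ⟨j, -, rfl⟩ := Finset.mem_image.mp hw
    set u : Fin d → Fin (n / 2 + 1) := fun i => ⟨(j i).val / 2, by have := (j i).isLt; omega⟩ with hu
    rw [Finset.mem_biUnion]
    refine ⟨u, Finset.mem_univ _, ?_⟩
    rw [Finset.mem_image]
    refine ⟨univ.filter (fun b => gw σ g j b ≠ gw σ g (j0 u) b), ?_, ?_⟩
    · rw [Finset.mem_powerset]
      intro b hb
      simp only [Finset.mem_filter, Finset.mem_univ, true_and] at hb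
      simp only [Box.hit, Finset.mem_filter, Finset.mem_univ, true_and, crossed_eq_some]
      by_contra hcon
      push Not at hcon
      apply hb
      unfold gw
      congr 1
      funext i
      have := hcon i
      simp only [hj0, hu] at this ⊢
      rw [decide_eq_decide]
      omega
    · funext b
      simp only [hfl, Finset.mem_filter, Finset.mem_univ, true_and]
      by_cases h : gw σ g j b = gw σ g (j0 u) b
      · simp [h]
      · simp only [ne_eq, h, not_false_eq_true, if_true]
        cases h1 : gw σ g j b <;> cases h2 : gw σ g (j0 u) b <;> simp_all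
  refine (Finset.card_le_card hsub).trans (Finset.card_biUnion_le.trans ?_)
  refine Finset.sum_le_sum (fun u _ => ?_)
  exact Finset.card_image_le.trans (le_of_eq (Finset.card_powerset _))

/-- [BD-7] -/
theorem card_gw_le (n d : ℕ) (hn : 1 ≤ n) (hd : 2 * d ≤ n + 1)
    (σ : Fin d → Equiv.Perm (Fin n)) (g : Fin n → (Fin d → Bool) → Bool) :
    ((univ.image (gw σ g)).card : ℝ) ≤
      ((n : ℝ) + 2) ^ d *
        Real.exp (-(((d : ℝ) ^ 2 * n / 16 - d * (n + 1) / 8) / ((n : ℝ) + 2) ^ 2)) := by
  classical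
  set β : Fin d → Fin (n / 2 + 1) → Option (Fin n) := fun i => crossed (σ i) with hβ
  obtain ⟨I, -, hI⟩ := Box.exists_cut (fun i j => (Box.Bs β i ∩ Box.Bs β j).card)
    (fun i j => by simp only [Finset.inter_comm]) (univ : Finset (Fin d))
  have hcut : ∑ i ∈ I, ∑ j ∈ univ \ I, (Box.Bs β i ∩ Box.Bs β j).card = Box.cut β I := by
    unfold Box.cut
    rw [Finset.compl_eq_univ_sdiff]
  rw [hcut] at hI
  -- the total
  set h := (n + 1) / 2 with hh
  have hcardB : ∀ i, (Box.Bs β i).card = h := fun i => card_Bs σ i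
  have htot := Box.sum_inter (Box.Bs β) h hcardB
  rw [Fintype.card_fin, Fintype.card_fin] at htot
  have hsplit : ∑ i : Fin d, ∑ j : Fin d, (Box.Bs β i ∩ Box.Bs β j).card =
      ∑ i : Fin d, ∑ j ∈ univ.erase i, (Box.Bs β i ∩ Box.Bs β j).card + d * h := by
    have : ∀ i : Fin d, ∑ j : Fin d, (Box.Bs β i ∩ Box.Bs β j).card =
        ∑ j ∈ univ.erase i, (Box.Bs β i ∩ Box.Bs β j).card + h := by
      intro i
      rw [← Finset.sum_erase_add univ _ (Finset.mem_univ i), Finset.inter_self, hcardB]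
    simp only [this, Finset.sum_add_distrib, Finset.sum_const, Finset.card_univ, Fintype.card_fin,
      smul_eq_mul]
  -- real inequality for the cut
  have hcutR : (d : ℝ) ^ 2 * n / 16 - d * (n + 1) / 8 ≤ (Box.cut β I : ℝ) := by
    have h1 : ((d : ℝ) * h) ^ 2 ≤ n * (4 * (Box.cut β I : ℝ) + d * h) := by
      have h2 : (d * h) ^ 2 ≤ n * (4 * Box.cut β I + d * h) := by
        refine htot.trans (Nat.mul_le_mul_left _ ?_)
        rw [hsplit]
        exact Nat.add_le_add_right hI _
      exact_mod_cast h2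
    have h3 : (n : ℝ) / 2 ≤ h := by
      have : n ≤ 2 * h := by omega
      have : (n : ℝ) ≤ 2 * h := by exact_mod_cast this
      linarith
    have h4 : (h : ℝ) ≤ (n + 1) / 2 := by
      have : 2 * h ≤ n + 1 := by omega
      have : (2 : ℝ) * h ≤ n + 1 := by exact_mod_cast this
      linarith
    have hn' : (0 : ℝ) < n := by exact_mod_cast hn
    have hd0 : (0 : ℝ) ≤ d := by positivity
    have h5 : ((d : ℝ) * (n / 2)) ^ 2 ≤ ((d : ℝ) * h) ^ 2 := by
      apply pow_le_pow_left₀ (by positivity)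
      exact mul_le_mul_of_nonneg_left h3 hd0
    have h6 : (d : ℝ) * h ≤ d * ((n + 1) / 2) := mul_le_mul_of_nonneg_left h4 hd0
    have h7 : (n : ℝ) * ((d : ℝ) ^ 2 * n / 4) ≤ n * (4 * (Box.cut β I : ℝ) + d * ((n + 1) / 2)) := by
      calc (n : ℝ) * ((d : ℝ) ^ 2 * n / 4) = ((d : ℝ) * (n / 2)) ^ 2 := by ring
        _ ≤ _ := h5
        _ ≤ _ := h1
        _ ≤ _ := by
          refine mul_le_mul_of_nonneg_left ?_ hn'.le
          linarith
    have h8 := le_of_mul_le_mul_left h7 hn'
    linarith
  have hsum := Box.sum_le β (m := n / 2 + 1) (by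
      intro i x y b hx hy
      rw [hβ] at hx hy
      simp only at hx hy
      rw [crossed_eq_some] at hx hy
      ext; omega) (by omega) (by rw [Fintype.card_fin]; omega) I
  rw [Fintype.card_fin] at hsum
  have hA : ((univ.image (gw σ g)).card : ℝ) ≤
      ∑ u : Fin d → Fin (n / 2 + 1), (2 : ℝ) ^ (Box.hit β u).card := by
    exact_mod_cast card_image_le_sum n d σ g
  refine hA.trans (hsum.trans ?_)
  have hm1 : (2 * ((n / 2 + 1 : ℕ) : ℝ)) ≤ (n : ℝ) + 2 := by
    have : 2 * (n / 2 + 1) ≤ n + 2 := by omega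
    exact_mod_cast this
  have hm0 : (0 : ℝ) < ((n / 2 + 1 : ℕ) : ℝ) := by positivity
  refine mul_le_mul ?_ ?_ (Real.exp_pos _).le (by positivity)
  · exact pow_le_pow_left₀ (by positivity) hm1 _
  · refine Real.exp_le_exp.mpr (neg_le_neg ?_)
    have h4m : (4 * ((n / 2 + 1 : ℕ) : ℝ) ^ 2) ≤ ((n : ℝ) + 2) ^ 2 := by
      calc (4 * ((n / 2 + 1 : ℕ) : ℝ) ^ 2) = (2 * ((n / 2 + 1 : ℕ) : ℝ)) ^ 2 := by ring
        _ ≤ _ := pow_le_pow_left₀ (by positivity) hm1 _
    have h4pos : (0 : ℝ) < (4 * ((n / 2 + 1 : ℕ) : ℝ) ^ 2) := by positivity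
    calc ((d : ℝ) ^ 2 * n / 16 - d * (n + 1) / 8) / ((n : ℝ) + 2) ^ 2
        ≤ (Box.cut β I : ℝ) / ((n : ℝ) + 2) ^ 2 := div_le_div_of_nonneg_right hcutR (by positivity)
      _ ≤ (Box.cut β I : ℝ) / (4 * ((n / 2 + 1 : ℕ) : ℝ) ^ 2) :=
          div_le_div_of_nonneg_left (by positivity) h4pos h4m

end Pool.Agent.BoolDim
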