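import Pool.Agent.BoolDim.Defs

/-!
# BD-8: analysis for the lower bound
-/

open Finset

namespace Pool.Agent.BoolDim

theorem Lg_eq (n : ℕ) : Lg n = Real.log (n + 1) / Real.log 2 := rfl

theorem eventually_log_pow_le (A : ℝ) (hA : 0 < A) (k : ℕ) :
    ∀ᶠ n : ℕ in Filter.atTop, A * Real.log ((n : ℝ) + 1) ^ k ≤ n := by
  have h1 : (fun x : ℝ => Real.log x ^ k) =o[Filter.atTop] (fun x : ℝ => x) :=
    Real.isLittleO_pow_log_id_atTop
  have h2 := h1.def (c := 1 / (2 * A)) (by positivity)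
  have h3 : Filter.Tendsto (fun n : ℕ => (n : ℝ) + 1) Filter.atTop Filter.atTop :=
    Filter.tendsto_atTop_add_const_right _ _ tendsto_natCast_atTop_atTop
  have h4 := h3.eventually h2
  filter_upwards [h4, Filter.eventually_ge_atTop 1] with n hn h1n
  have hn1 : (1 : ℝ) ≤ n := by exact_mod_cast h1n
  have hlog : 0 ≤ Real.log ((n : ℝ) + 1) := Real.log_nonneg (by linarith)
  rw [Real.norm_of_nonneg (by positivity), Real.norm_of_nonneg (by positivity)] at hn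
  calc A * Real.log ((n : ℝ) + 1) ^ k ≤ A * (1 / (2 * A) * ((n : ℝ) + 1)) :=
        mul_le_mul_of_nonneg_left hn hA.le
    _ = ((n : ℝ) + 1) / 2 := by field_simp
    _ ≤ n := by linarith

theorem lower_analysis : ∃ c : ℝ, 0 < c ∧ ∀ᶠ n : ℕ in Filter.atTop, ∀ d : ℕ, 2 * d ≤ n + 1 →
    (2 : ℝ) ^ n ≤ ((n : ℝ) + 2) ^ d *
        Real.exp (-(((d : ℝ) ^ 2 * n / 16 - d * (n + 1) / 8) / ((n : ℝ) + 2) ^ 2)) →
    (n : ℝ) / Lg n + c * n / (Lg n) ^ 3 ≤ d := by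
  refine ⟨1 / 256, by norm_num, ?_⟩
  filter_upwards [eventually_log_pow_le 144 (by norm_num) 2, Filter.eventually_ge_atTop 5]
    with n hn h5 d hd h
  have hn5 : (5 : ℝ) ≤ n := by exact_mod_cast h5
  have hd' : 2 * (d : ℝ) ≤ n + 1 := by exact_mod_cast hd
  have hd0 : (0 : ℝ) ≤ d := by positivity
  set l := Real.log ((n : ℝ) + 1) with hl
  have hlpos : 0 < l := Real.log_pos (by linarith)
  have hlog2 : (0.69 : ℝ) < Real.log 2 := by have := Real.log_two_gt_d9; linarith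
  have hlog2' : Real.log 2 < 0.7 := by have := Real.log_two_lt_d9; linarith
  -- logarithms
  have h1 : (n : ℝ) * Real.log 2 ≤ d * Real.log ((n : ℝ) + 2) -
      ((d : ℝ) ^ 2 * n / 16 - d * (n + 1) / 8) / ((n : ℝ) + 2) ^ 2 := by
    have := Real.log_le_log (by positivity) h
    rw [Real.log_pow, Real.log_mul (by positivity) (Real.exp_pos _).ne', Real.log_pow,
      Real.log_exp] at this
    linarith
  have h2 : Real.log ((n : ℝ) + 2) ≤ l + 1 / (n + 1) := by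
    have e : (n : ℝ) + 2 = (n + 1) * (1 + 1 / (n + 1)) := by field_simp; ring
    rw [e, Real.log_mul (by positivity) (by positivity)]
    have := Real.log_le_sub_one_of_pos (x := 1 + 1 / ((n : ℝ) + 1)) (by positivity)
    linarith
  have h3 : (d : ℝ) * Real.log ((n : ℝ) + 2) ≤ d * l + 1 / 2 := by
    have e1 : (d : ℝ) * (1 / (n + 1)) ≤ 1 / 2 := by
      rw [mul_one_div, div_le_div_iff₀ (by positivity) (by norm_num)]; linarith
    nlinarith
  have h4 : ((d : ℝ) * (n + 1) / 8) / ((n : ℝ) + 2) ^ 2 ≤ 1 / 16 := by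
    rw [div_div, div_le_div_iff₀ (by positivity) (by norm_num)]
    nlinarith
  have h5' : ((d : ℝ) ^ 2 * n / 16 - d * (n + 1) / 8) / ((n : ℝ) + 2) ^ 2 =
      ((d : ℝ) ^ 2 * n / 16) / ((n : ℝ) + 2) ^ 2 - (d * (n + 1) / 8) / ((n : ℝ) + 2) ^ 2 := by
    rw [sub_div]
  have h6 : (n : ℝ) * Real.log 2 + ((d : ℝ) ^ 2 * n / 16) / ((n : ℝ) + 2) ^ 2 ≤ d * l + 9 / 16 := by
    linarith
  have h7 : (n : ℝ) / 2 ≤ d * l := by
    have : 0 ≤ ((d : ℝ) ^ 2 * n / 16) / ((n : ℝ) + 2) ^ 2 := by positivity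
    nlinarith
  have h8 : (n : ℝ) / (128 * l ^ 2) ≤ ((d : ℝ) ^ 2 * n / 16) / ((n : ℝ) + 2) ^ 2 := by
    rw [div_le_div_iff₀ (by positivity) (by positivity)]
    have h9 : ((n : ℝ) / 2) ^ 2 ≤ (d * l) ^ 2 := pow_le_pow_left₀ (by positivity) h7 2
    have h10 : ((n : ℝ) + 2) ^ 2 ≤ 2 * (n : ℝ) ^ 2 := by nlinarith
    have h11 : (d : ℝ) ^ 2 * n / 16 * (128 * l ^ 2) = 8 * n * (d * l) ^ 2 := by ring
    rw [h11]
    nlinarith [mul_le_mul_of_nonneg_left h9 (by positivity : (0 : ℝ) ≤ 8 * n),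
      mul_le_mul_of_nonneg_left h10 (by positivity : (0 : ℝ) ≤ (n : ℝ))]
  have h12 : (9 : ℝ) / 16 ≤ (n : ℝ) / (256 * l ^ 2) := by
    rw [div_le_div_iff₀ (by norm_num) (by positivity)]
    linarith
  have h13 : (n : ℝ) / (128 * l ^ 2) = (n : ℝ) / (256 * l ^ 2) + (n : ℝ) / (256 * l ^ 2) := by
    field_simp; ring
  have h14 : (n : ℝ) * Real.log 2 + (n : ℝ) / (256 * l ^ 2) ≤ d * l := by linarith
  have h15 : ((n : ℝ) * Real.log 2 + (n : ℝ) / (256 * l ^ 2)) / l ≤ d := by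
    rw [div_le_iff₀ hlpos]; exact h14
  refine le_trans ?_ h15
  rw [Lg_eq, ← hl]
  have e1 : (n : ℝ) / (l / Real.log 2) = n * Real.log 2 / l := by field_simp
  have e2 : 1 / 256 * (n : ℝ) / (l / Real.log 2) ^ 3 = (Real.log 2) ^ 3 * ((n : ℝ) / (256 * l ^ 2) / l) := by
    field_simp
  rw [e1, e2, add_div]
  refine add_le_add le_rfl ?_
  have e3 : (Real.log 2) ^ 3 ≤ 1 := pow_le_one₀ (by linarith) (by linarith)
  have e4 : 0 ≤ (n : ℝ) / (256 * l ^ 2) / l := by positivity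
  nlinarith

end Pool.Agent.BoolDim
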