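import Pool.Agent.BoolDim.T1
import Pool.Agent.BoolDim.T2
import Pool.Agent.BoolDim.T3
import Pool.Agent.BoolDim.T4
import Pool.Agent.BoolDim.T5
import Pool.Agent.BoolDim.T6
import Pool.Agent.BoolDim.T7b
import Pool.Agent.BoolDim.T8

/-!
# Boolean dimension of an antichain plus `n` points: assembly
-/

open Finset

namespace Pool.Agent.BoolDim

theorem exists_perm_range (n d : ℕ) : ∃ σ : Fin d → Equiv.Perm (Fin n),
    (2 : ℝ) ^ n ≤ ((univ.image (wd σ)).card : ℝ) * Mb n d :=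
  exists_perm_range_of sum_perm_Zp_sq n d

theorem bdim_le_of_cover (n D k : ℕ) (σ : Fin D → Equiv.Perm (Fin n))
    (hσ : Function.Surjective (wd σ)) (hk : n + 1 ≤ 2 ^ k) :
    ∀ e ∈ bdims n, e ≤ D + (1 + 3 * k) := by
  rintro e ⟨X, hfin, hpo, hX, rfl⟩
  refine Nat.sInf_le ⟨by omega, ?_⟩
  exact realizer_of_cover n D k σ hσ hk X hX

theorem exists_cover (n : ℕ) : ∃ (D : ℕ) (σ : Fin D → Equiv.Perm (Fin n)),
    Function.Surjective (wd σ) := by
  rcases Nat.eq_zero_or_pos n with rfl | hn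
  · refine ⟨0, fun _ => 1, ?_⟩
    intro w
    exact ⟨fun _ => 0, by funext b; exact b.elim0⟩
  · obtain ⟨σ', h'⟩ := amplify n 0 (n + n) hn (2 ^ n) (by positivity) (fun _ => 1) (by
      have h1 : 1 ≤ (univ.image (wd (n := n) (d := 0) (fun _ => 1))).card := by
        rw [Nat.one_le_iff_ne_zero, ← Nat.pos_iff_ne_zero, Finset.card_pos]
        exact Finset.univ_nonempty.image _
      have h2 : (1 : ℝ) ≤ ((univ.image (wd (n := n) (d := 0) (fun _ => 1))).card : ℝ) := by
        exact_mod_cast h1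
      have h3 : (0 : ℝ) < 2 ^ n := by positivity
      nlinarith) (by
      rw [pow_add]
      refine mul_le_mul_of_nonneg_right ?_ (by positivity)
      exact_mod_cast (Nat.lt_two_pow_self).le)
    exact ⟨_, σ', h'⟩

theorem bdims_bddAbove (n : ℕ) : BddAbove (bdims n) := by
  obtain ⟨D, σ, hσ⟩ := exists_cover n
  refine ⟨D + (1 + 3 * (n + 1)), ?_⟩
  intro e he
  exact bdim_le_of_cover n D (n + 1) σ hσ (Nat.lt_two_pow_self).le e he

theorem full_mem (n : ℕ) : bdim (Full n) ∈ bdims n :=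
  ⟨Full n, Full.finite n, inferInstance, Full.isAntichainPlus n, rfl⟩

theorem isGreatest_f (n : ℕ) : IsGreatest (bdims n) (f n) :=
  ⟨Nat.sSup_mem ⟨_, full_mem n⟩ (bdims_bddAbove n), fun _ he => le_csSup (bdims_bddAbove n) he⟩

theorem tendsto_Lg : Filter.Tendsto Lg Filter.atTop Filter.atTop := by
  have h1 : Filter.Tendsto (fun n : ℕ => (n : ℝ) + 1) Filter.atTop Filter.atTop :=
    Filter.tendsto_atTop_add_const_right _ _ tendsto_natCast_atTop_atTop
  exact (Real.tendsto_logb_atTop (by norm_num)).comp h1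

/-- the lower bound -/
theorem lower : ∃ c : ℝ, 0 < c ∧ ∀ᶠ n : ℕ in Filter.atTop,
    (n : ℝ) / Lg n + c * n / (Lg n) ^ 3 ≤ f n := by
  obtain ⟨c, hc, hev⟩ := lower_analysis
  refine ⟨c, hc, ?_⟩
  filter_upwards [hev, Filter.eventually_ge_atTop 1, tendsto_Lg.eventually_ge_atTop (4 + 4 * c)]
    with n hn h1 hL
  have hfd : bdim (Full n) ≤ f n := (isGreatest_f n).2 (full_mem n)
  have hfd' : ((bdim (Full n) : ℕ) : ℝ) ≤ f n := by exact_mod_cast hfd
  refine le_trans ?_ hfd'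
  -- the set defining bdim is nonempty
  have hne : {d : ℕ | 1 ≤ d ∧ HasBoolRealizer (Full n) d}.Nonempty := by
    obtain ⟨D, σ, hσ⟩ := exists_cover n
    have := Full.finite n
    exact ⟨D + (1 + 3 * (n + 1)), by omega,
      realizer_of_cover n D (n + 1) σ hσ (Nat.lt_two_pow_self).le (Full n) (Full.isAntichainPlus n)⟩
  obtain ⟨-, hreal⟩ := Nat.sInf_mem hne
  change HasBoolRealizer (Full n) (bdim (Full n)) at hreal
  set d := bdim (Full n) with hd
  rcases le_or_gt (2 * d) (n + 1) with h2 | h2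
  · refine hn d h2 ?_
    obtain ⟨σ, g, hs⟩ := Full.surj_of_realizer n d hreal
    have hcard : ((univ.image (gw σ g)).card : ℝ) = 2 ^ n := by
      rw [Finset.image_univ_of_surjective hs, Finset.card_univ, Fintype.card_fun, Fintype.card_bool,
        Fintype.card_fin]
      push_cast; rfl
    rw [← hcard]
    exact card_gw_le n d h1 h2 σ g
  · have h3 : (n : ℝ) / 2 ≤ d := by
      have : (n : ℝ) + 1 < 2 * d := by exact_mod_cast h2
      linarith
    refine le_trans ?_ h3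
    have hn0 : (0 : ℝ) ≤ n := by positivity
    have hLpos : 0 < Lg n := by linarith
    have e1 : (n : ℝ) / Lg n ≤ n / 4 := by
      apply div_le_div_of_nonneg_left hn0 (by norm_num) (by linarith)
    have e2 : c * n / (Lg n) ^ 3 ≤ n / 4 := by
      rw [div_le_div_iff₀ (by positivity) (by norm_num)]
      have h4 : 4 * c ≤ (Lg n) ^ 3 := by
        have : Lg n ≤ (Lg n) ^ 3 := le_self_pow₀ (by linarith) (by norm_num)
        linarith
      nlinarith
    linarith

theorem eventually_Lg_pow_le (A : ℝ) (hA : 0 < A) (k : ℕ) :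
    ∀ᶠ n : ℕ in Filter.atTop, A * (Lg n) ^ k ≤ n := by
  filter_upwards [eventually_log_pow_le (A * 2 ^ k) (by positivity) k] with n hn
  refine le_trans ?_ hn
  rw [mul_assoc]
  refine mul_le_mul_of_nonneg_left ?_ hA.le
  rw [← mul_pow]
  have hlog2 : (0.69 : ℝ) < Real.log 2 := by have := Real.log_two_gt_d9; linarith
  have hl : 0 ≤ Real.log ((n : ℝ) + 1) := Real.log_nonneg (by have : (0 : ℝ) ≤ n := by positivity
                                                              linarith)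
  refine pow_le_pow_left₀ (by rw [Lg_eq]; positivity) ?_ k
  rw [Lg_eq, div_le_iff₀ (by linarith)]
  nlinarith

/-- the upper bound -/
theorem upper : ∃ C : ℝ, 0 < C ∧ ∀ᶠ n : ℕ in Filter.atTop,
    (f n : ℝ) ≤ (n : ℝ) / Lg n + C * n / (Lg n) ^ 3 := by
  obtain ⟨C, hC, hev⟩ := Mb_le
  refine ⟨C + 1, by linarith, ?_⟩
  filter_upwards [hev, Filter.eventually_ge_atTop 1, tendsto_Lg.eventually_ge_atTop (2 + 2 * C),
    eventually_Lg_pow_le 14 (by norm_num) 4] with n hn h1 hL h4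
  have hn0 : (0 : ℝ) < n := by exact_mod_cast h1
  have hLpos : 0 < Lg n := by linarith
  have hL2 : 2 ≤ Lg n := by linarith
  set L := Lg n with hLdef
  set x := (n : ℝ) / L + C * n / L ^ 3 with hx
  have hx0 : 0 ≤ x := by positivity
  set d := ⌈x⌉₊ with hd
  have hd1 : x ≤ d := Nat.le_ceil x
  have hd2 : (d : ℝ) < x + 1 := Nat.ceil_lt_add_one hx0
  -- d ≤ 2 n / L
  have hL3 : L ^ 3 * L = L ^ 4 := by ring
  have h4' : 14 * L ^ 4 ≤ n := h4
  have hd3 : (d : ℝ) ≤ 2 * n / L := by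
    have e1 : C * n / L ^ 3 ≤ n / L / 2 := by
      rw [div_div, div_le_div_iff₀ (by positivity) (by positivity)]
      have : 2 * C * L ≤ L ^ 3 := by
        have h5 : 2 * C ≤ L ^ 2 := by nlinarith
        nlinarith
      nlinarith
    have e2 : 1 ≤ (n : ℝ) / L / 2 := by
      rw [div_div, le_div_iff₀ (by positivity)]
      have : L ≤ L ^ 4 := le_self_pow₀ (by linarith) (by norm_num)
      nlinarith
    have e3 : 2 * (n : ℝ) / L = n / L + n / L / 2 + n / L / 2 := by field_simp; ring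
    rw [e3]
    linarith
  have hM := hn d hd1 hd3
  obtain ⟨σ, hσ⟩ := exists_perm_range n d
  set k := Nat.log 2 n + 1 with hk
  have hk1 : n + 1 ≤ 2 ^ k := Nat.lt_pow_succ_log_self (by norm_num) n
  have hk2 : (k : ℝ) ≤ L + 1 := by
    have h5 : 2 ^ (Nat.log 2 n) ≤ n := Nat.pow_log_le_self 2 (by omega)
    have h6 : ((Nat.log 2 n : ℕ) : ℝ) ≤ L := by
      rw [hLdef]
      unfold Lg
      rw [Real.le_logb_iff_rpow_le (by norm_num) (by positivity)]
      rw [Real.rpow_natCast]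
      have : ((2 : ℝ) ^ (Nat.log 2 n)) ≤ n := by exact_mod_cast h5
      linarith
    rw [hk]; push_cast; linarith
  obtain ⟨σ', hσ'⟩ := amplify n d (2 * k + 2) h1 ((n : ℝ) + 3) (by positivity) σ (by
      refine hσ.trans ?_
      exact mul_le_mul_of_nonneg_left hM (by positivity)) (by
      have h7 : (n : ℝ) + 1 ≤ 2 ^ k := by exact_mod_cast hk1
      have h8 : (2 : ℝ) ^ (2 * k + 2) = 4 * (2 ^ k) ^ 2 := by ring
      rw [h8]
      nlinarith)
  have hfin := bdim_le_of_cover n (d + (2 * k + 2)) k σ' hσ' hk1 (f n) (isGreatest_f n).1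
  have hfin' : (f n : ℝ) ≤ d + (2 * k + 2) + (1 + 3 * k) := by exact_mod_cast hfin
  have hlast : 5 * L + 9 ≤ n / L ^ 3 := by
    rw [le_div_iff₀ (by positivity)]
    have : 9 ≤ 9 * L := by linarith
    nlinarith [pow_pos hLpos 3]
  have e4 : (C + 1) * (n : ℝ) / L ^ 3 = C * n / L ^ 3 + n / L ^ 3 := by ring
  rw [e4]
  linarith

/-- [BD-9] -/
theorem main : (∀ n : ℕ, IsGreatest (bdims n) (f n)) ∧
    ∃ c C : ℝ, 0 < c ∧ 0 < C ∧ ∀ᶠ n : ℕ in Filter.atTop,
      (n : ℝ) / Lg n + c * n / (Lg n) ^ 3 ≤ f n ∧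
      (f n : ℝ) ≤ (n : ℝ) / Lg n + C * n / (Lg n) ^ 3 := by
  obtain ⟨c, hc, h1⟩ := lower
  obtain ⟨C, hC, h2⟩ := upper
  exact ⟨isGreatest_f, c, C, hc, hC, h1.and h2⟩

end Pool.Agent.BoolDim
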