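import Pool.Agent.BoolDim.Defs

/-!
# BD-1: alternating sums over subsets
-/

open Finset

namespace Pool.Agent.BoolDim

theorem sum_powersetCard_range_succ (n k : ℕ) (F : Finset ℕ → ℤ) :
    ∑ K ∈ powersetCard (k + 1) (range (n + 1)), F K =
      ∑ K ∈ powersetCard (k + 1) (range n), F K + ∑ K ∈ powersetCard k (range n), F (insert n K) := by
  rw [range_add_one, powersetCard_succ_insert notMem_range_self, sum_union]
  · congr 1
    apply sum_image
    intro A hA B hB h
    rw [mem_coe, mem_powersetCard] at hA hB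
    have h1 : n ∉ A := fun h => notMem_range_self (hA.1 h)
    have h2 : n ∉ B := fun h => notMem_range_self (hB.1 h)
    rw [← erase_insert h1, ← erase_insert h2, h]
  · rw [disjoint_left]
    intro A hA hB
    obtain ⟨B, -, rfl⟩ := mem_image.1 hB
    exact notMem_range_self ((mem_powersetCard.1 hA).1 (mem_insert_self _ _))

theorem Zs_succ {n : ℕ} {K : Finset ℕ} (hK : K ⊆ range n) :
    Zs (n + 1) K = Zs n K + (-1) ^ K.card := by
  unfold Zs
  rw [sum_range_succ]
  congr 2
  rw [filter_true_of_mem]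
  intro x hx
  have := mem_range.1 (hK hx)
  omega

theorem Zs_insert {n : ℕ} {K : Finset ℕ} (hK : K ⊆ range n) :
    Zs (n + 1) (insert n K) = Zs n K + (-1) ^ (K.card + 1) := by
  have hn : n ∉ K := fun h => notMem_range_self (hK h)
  unfold Zs
  rw [sum_range_succ]
  congr 1
  · refine sum_congr rfl fun j hj => ?_
    rw [mem_range] at hj
    rw [filter_insert, if_neg (by omega)]
  · congr 1
    rw [filter_true_of_mem, card_insert_of_notMem hn]
    intro x hx
    rw [mem_insert] at hx
    rcases hx with hx | hx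
    · omega
    · have := mem_range.1 (hK hx)
      omega

theorem Zs_empty (n : ℕ) : Zs n ∅ = n + 1 := by
  unfold Zs
  simp

/-- The first moment. -/
theorem sum_Zs (n : ℕ) : ∀ k : ℕ, ∑ K ∈ powersetCard k (range n), Zs n K =
    if Even k then (((n + 1).choose (k + 1) : ℕ) : ℤ) else 0 := by
  induction n with
  | zero =>
    intro k
    rcases Nat.eq_zero_or_pos k with h | h
    · subst h
      simp [Zs_empty]
    · rw [range_zero, powersetCard_eq_empty.2 (by simpa using h), sum_empty]
      have : (0 + 1).choose (k + 1) = 0 := Nat.choose_eq_zero_of_lt (by omega)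
      rw [this]
      simp
  | succ n ih =>
    intro k
    rcases k with _ | k
    · simp [Zs_empty]
    · rw [sum_powersetCard_range_succ]
      have h1 : ∑ K ∈ powersetCard (k + 1) (range n), Zs (n + 1) K =
          ∑ K ∈ powersetCard (k + 1) (range n), Zs n K + (-1) ^ (k + 1) * (n.choose (k + 1) : ℤ) := by
        rw [sum_congr rfl fun K hK => by
          rw [Zs_succ (mem_powersetCard.1 hK).1, (mem_powersetCard.1 hK).2], sum_add_distrib,
          sum_const, card_powersetCard, card_range, nsmul_eq_mul]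
        ring
      have h2 : ∑ K ∈ powersetCard k (range n), Zs (n + 1) (insert n K) =
          ∑ K ∈ powersetCard k (range n), Zs n K + (-1) ^ (k + 1) * (n.choose k : ℤ) := by
        rw [sum_congr rfl fun K hK => by
          rw [Zs_insert (mem_powersetCard.1 hK).1, (mem_powersetCard.1 hK).2], sum_add_distrib,
          sum_const, card_powersetCard, card_range, nsmul_eq_mul]
        ring
      rw [h1, h2, ih, ih]
      have h3 : ((n + 1).choose (k + 1) : ℤ) = n.choose k + n.choose (k + 1) := by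
        rw [Nat.choose_succ_succ]; push_cast; ring
      have h4 : ((n + 1 + 1).choose (k + 1 + 1) : ℤ) =
          (n + 1).choose (k + 1) + (n + 1).choose (k + 1 + 1) := by
        rw [Nat.choose_succ_succ]; push_cast; ring
      by_cases hk : Even k
      · have hk' : ¬ Even (k + 1) := by rw [Nat.even_add_one]; exact not_not.2 hk
        rw [if_pos hk, if_neg hk', if_neg hk', Odd.neg_one_pow (Nat.not_even_iff_odd.1 hk')]
        linarith
      · have hk' : Even (k + 1) := Nat.even_add_one.2 hk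
        rw [if_neg hk, if_pos hk', if_pos hk', Even.neg_one_pow hk', h4]
        linarith

theorem choose_ident (N r : ℕ) : ((r : ℤ) + 1) * (N.choose (r + 1) : ℤ) = ((N : ℤ) - r) * N.choose r := by
  rcases Nat.lt_or_ge N r with h | h
  · rw [Nat.choose_eq_zero_of_lt h, Nat.choose_eq_zero_of_lt (by omega)]
    simp
  · have h1 := Nat.choose_succ_right_eq N r
    have h2 : ((N.choose (r + 1) * (r + 1) : ℕ) : ℤ) = ((N.choose r * (N - r) : ℕ) : ℤ) := by rw [h1]
    push_cast [Nat.cast_sub h] at h2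
    linarith

/-- The second moment. -/
theorem sum_Zs_sq' (n : ℕ) : ∀ k : ℕ, ∑ K ∈ powersetCard k (range n), (Zs n K) ^ 2 =
    if Even k then ((n : ℤ) + 1 - k) * ((n + 1).choose (k + 1) : ℤ)
    else ((k : ℤ) + 1) * ((n + 1).choose (k + 2) : ℤ) := by
  induction n with
  | zero =>
    intro k
    rcases Nat.eq_zero_or_pos k with h | h
    · subst h
      simp [Zs_empty]
    · rw [range_zero, powersetCard_eq_empty.2 (by simpa using h), sum_empty]
      have e1 : (0 + 1).choose (k + 1) = 0 := Nat.choose_eq_zero_of_lt (by omega)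
      have e2 : (0 + 1).choose (k + 2) = 0 := Nat.choose_eq_zero_of_lt (by omega)
      rw [e1, e2]
      simp
  | succ n ih =>
    intro k
    rcases k with _ | k
    · simp [Zs_empty]
      ring
    · rw [sum_powersetCard_range_succ]
      have h1 : ∑ K ∈ powersetCard (k + 1) (range n), (Zs (n + 1) K) ^ 2 =
          ∑ K ∈ powersetCard (k + 1) (range n), (Zs n K) ^ 2 +
          2 * (-1) ^ (k + 1) * ∑ K ∈ powersetCard (k + 1) (range n), Zs n K +
          (n.choose (k + 1) : ℤ) := by
        rw [sum_congr rfl fun K hK => by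
          rw [Zs_succ (mem_powersetCard.1 hK).1, (mem_powersetCard.1 hK).2]]
        rw [mul_sum, ← sum_add_distrib]
        have e : (n.choose (k + 1) : ℤ) = ∑ _K ∈ powersetCard (k + 1) (range n), (1 : ℤ) := by
          rw [sum_const, card_powersetCard, card_range, nsmul_eq_mul, mul_one]
        rw [e, ← sum_add_distrib]
        refine sum_congr rfl fun K _ => ?_
        have e2 : ((-1 : ℤ) ^ (k + 1)) ^ 2 = 1 := by rw [← pow_mul, mul_comm, pow_mul]; simp
        rw [add_sq, e2]
        ring
      have h2 : ∑ K ∈ powersetCard k (range n), (Zs (n + 1) (insert n K)) ^ 2 =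
          ∑ K ∈ powersetCard k (range n), (Zs n K) ^ 2 +
          2 * (-1) ^ (k + 1) * ∑ K ∈ powersetCard k (range n), Zs n K +
          (n.choose k : ℤ) := by
        rw [sum_congr rfl fun K hK => by
          rw [Zs_insert (mem_powersetCard.1 hK).1, (mem_powersetCard.1 hK).2]]
        rw [mul_sum, ← sum_add_distrib]
        have e : (n.choose k : ℤ) = ∑ _K ∈ powersetCard k (range n), (1 : ℤ) := by
          rw [sum_const, card_powersetCard, card_range, nsmul_eq_mul, mul_one]
        rw [e, ← sum_add_distrib]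
        refine sum_congr rfl fun K _ => ?_
        have e2 : ((-1 : ℤ) ^ (k + 1)) ^ 2 = 1 := by rw [← pow_mul, mul_comm, pow_mul]; simp
        rw [add_sq, e2]
        ring
      rw [h1, h2, ih, ih, sum_Zs, sum_Zs]
      have h3 : ((n + 1).choose (k + 1) : ℤ) = n.choose k + n.choose (k + 1) := by
        rw [Nat.choose_succ_succ]; push_cast; ring
      have h4 : ((n + 1 + 1).choose (k + 1 + 1) : ℤ) =
          (n + 1).choose (k + 1) + (n + 1).choose (k + 2) := by
        rw [Nat.choose_succ_succ]; push_cast; ring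
      have h5 : ((n + 1 + 1).choose (k + 1 + 2) : ℤ) =
          (n + 1).choose (k + 2) + (n + 1).choose (k + 3) := by
        rw [show k + 1 + 2 = (k + 2) + 1 by ring, Nat.choose_succ_succ]; push_cast; ring
      have h6 := choose_ident (n + 1) (k + 1)
      have e1 : k + 1 + 1 = k + 2 := by ring
      have e2 : k + 1 + 2 = k + 3 := by ring
      by_cases hk : Even k
      · have hk' : ¬ Even (k + 1) := by rw [Nat.even_add_one]; exact not_not.2 hk
        rw [if_pos hk, if_neg hk', if_neg hk', if_neg hk', if_pos hk,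
          Odd.neg_one_pow (Nat.not_even_iff_odd.1 hk'), h5]
        rw [e1] at h6
        rw [e2]
        push_cast at h3 h6 ⊢
        linarith
      · have hk' : Even (k + 1) := Nat.even_add_one.2 hk
        rw [if_neg hk, if_pos hk', if_pos hk', if_pos hk', if_neg hk, Even.neg_one_pow hk', h4]
        rw [e1] at h6 ⊢
        push_cast at h3 h6 ⊢
        linarith

/-- [BD-1a] -/
theorem sum_Zs_sq (n k : ℕ) (hk : k ≤ n) :
    ∑ K ∈ powersetCard k (range n), (Zs n K) ^ 2 =
      if Even k then (((n + 1 - k) * (n + 1).choose (k + 1) : ℕ) : ℤ)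
      else (((k + 1) * (n + 1).choose (k + 2) : ℕ) : ℤ) := by
  rw [sum_Zs_sq']
  split_ifs with h
  · push_cast [Nat.cast_sub (show k ≤ n + 1 by omega)]
    ring
  · push_cast
    ring

/-- The embedding of `Fin n` into `ℕ` given by a permutation. -/
def pemb {n : ℕ} (σ : Equiv.Perm (Fin n)) : Fin n ↪ ℕ := σ.toEmbedding.trans Fin.valEmbedding

theorem Zp_eq {n : ℕ} (σ : Equiv.Perm (Fin n)) (K : Finset (Fin n)) :
    Zp σ K = Zs n (K.map (pemb σ)) := by
  unfold Zp Zs
  rw [Finset.sum_range (n := n + 1)]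
  refine sum_congr rfl fun j _ => ?_
  congr 1
  rw [filter_map, card_map]
  rfl

theorem sum_fixed {n k : ℕ} (σ : Equiv.Perm (Fin n)) :
    ∑ K ∈ powersetCard k (univ : Finset (Fin n)), (Zp σ K) ^ 2 =
      ∑ K ∈ powersetCard k (range n), (Zs n K) ^ 2 := by
  have h1 : (univ : Finset (Fin n)).map (pemb σ) = range n := by
    ext x
    simp only [mem_map, mem_univ, true_and, mem_range]
    constructor
    · rintro ⟨a, rfl⟩
      exact (σ a).2
    · intro h
      exact ⟨σ.symm ⟨x, h⟩, by simp [pemb]⟩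
  rw [← h1, powersetCard_map, sum_map]
  refine sum_congr rfl fun K _ => ?_
  rw [Zp_eq]
  rfl

theorem sum_perm_congr {n : ℕ} {K K' : Finset (Fin n)} (h : K.card = K'.card) :
    ∑ σ : Equiv.Perm (Fin n), (Zp σ K') ^ 2 = ∑ σ : Equiv.Perm (Fin n), (Zp σ K) ^ 2 := by
  classical
  let e : {x // x ∈ K} ≃ {x // x ∈ K'} := Finset.equivOfCardEq h
  let τ : Equiv.Perm (Fin n) := e.extendSubtype
  have hτ : K.map τ.toEmbedding = K' := by
    apply eq_of_subset_of_card_le
    · intro x hx
      obtain ⟨a, ha, rfl⟩ := mem_map.1 hx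
      exact e.extendSubtype_mem a ha
    · rw [card_map, h]
  have h1 : ∀ σ : Equiv.Perm (Fin n), Zp σ K' = Zp (σ * τ) K := by
    intro σ
    rw [Zp_eq, Zp_eq, ← hτ, map_map]
    rfl
  simp_rw [h1]
  exact Fintype.sum_equiv (Equiv.mulRight τ) _ _ (fun σ => rfl)

theorem card_mul_sum {n : ℕ} (K : Finset (Fin n)) :
    (n.choose K.card : ℤ) * ∑ σ : Equiv.Perm (Fin n), (Zp σ K) ^ 2 =
      (n.factorial : ℤ) * ∑ L ∈ powersetCard K.card (range n), (Zs n L) ^ 2 := by
  have h1 : ∑ K' ∈ powersetCard K.card (univ : Finset (Fin n)),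
      ∑ σ : Equiv.Perm (Fin n), (Zp σ K') ^ 2 =
      (n.choose K.card : ℤ) * ∑ σ : Equiv.Perm (Fin n), (Zp σ K) ^ 2 := by
    rw [sum_congr rfl fun K' hK' => sum_perm_congr (mem_powersetCard.1 hK').2.symm, sum_const,
      card_powersetCard, card_univ, Fintype.card_fin, nsmul_eq_mul]
  rw [← h1, sum_comm, sum_congr rfl fun σ _ => sum_fixed σ, sum_const, card_univ,
    Fintype.card_perm, Fintype.card_fin, nsmul_eq_mul]

/-- [BD-1b] (uses BD-1a) -/
theorem sum_perm_Zp_sq (n : ℕ) (K : Finset (Fin n)) :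
    (∑ σ : Equiv.Perm (Fin n), ((Zp σ K : ℤ) : ℝ) ^ 2) ≤
      (n.factorial : ℝ) * (((n : ℝ) + 1) ^ 2 *
        (((n : ℝ) + 1 - K.card) / (((n : ℝ) + 1) * (K.card + 1)))) := by
  set k := K.card with hk
  have hkn : k ≤ n := by
    have := card_le_univ K
    rwa [Fintype.card_fin] at this
  have h1 := card_mul_sum K
  rw [← hk, sum_Zs_sq'] at h1
  -- the bound for the second moment
  have h2 : (if Even k then ((n : ℤ) + 1 - k) * ((n + 1).choose (k + 1) : ℤ)
      else ((k : ℤ) + 1) * ((n + 1).choose (k + 2) : ℤ)) ≤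
      ((n : ℤ) + 1 - k) * ((n + 1).choose (k + 1) : ℤ) := by
    split_ifs with h
    · exact le_rfl
    · have h3 := choose_ident (n + 1) (k + 1)
      rw [show k + 1 + 1 = k + 2 by ring] at h3
      have h4 : (0 : ℤ) ≤ (n + 1).choose (k + 1) := Int.natCast_nonneg _
      have h5 : (0 : ℤ) ≤ (n + 1).choose (k + 2) := Int.natCast_nonneg _
      push_cast at h3
      nlinarith
  have h3 : ((k : ℝ) + 1) * ((n + 1).choose (k + 1) : ℝ) = ((n : ℝ) + 1) * n.choose k := by
    have := Nat.add_one_mul_choose_eq n k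
    have h4 : (((n + 1) * n.choose k : ℕ) : ℝ) = (((n + 1).choose (k + 1) * (k + 1) : ℕ) : ℝ) := by
      rw [this]
    push_cast at h4
    linarith
  have h4 : (n.choose k : ℝ) * ∑ σ : Equiv.Perm (Fin n), ((Zp σ K : ℤ) : ℝ) ^ 2 ≤
      (n.factorial : ℝ) * (((n : ℝ) + 1 - k) * ((n + 1).choose (k + 1) : ℝ)) := by
    have h5 : (n.choose k : ℤ) * ∑ σ : Equiv.Perm (Fin n), (Zp σ K) ^ 2 ≤
        (n.factorial : ℤ) * (((n : ℤ) + 1 - k) * ((n + 1).choose (k + 1) : ℤ)) := by
      rw [h1]
      exact mul_le_mul_of_nonneg_left h2 (Int.natCast_nonneg _)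
    exact_mod_cast h5
  have hc : (0 : ℝ) < n.choose k := by exact_mod_cast Nat.choose_pos hkn
  have hk1 : (0 : ℝ) < (k : ℝ) + 1 := by positivity
  have hn1 : (0 : ℝ) < (n : ℝ) + 1 := by positivity
  have h5 : ((n : ℝ) + 1) ^ 2 * (((n : ℝ) + 1 - k) / (((n : ℝ) + 1) * (k + 1))) =
      ((n : ℝ) + 1) * ((n : ℝ) + 1 - k) / (k + 1) := by
    field_simp
  rw [h5]
  have h6 : (n.choose k : ℝ) * ∑ σ : Equiv.Perm (Fin n), ((Zp σ K : ℤ) : ℝ) ^ 2 ≤
      (n.choose k : ℝ) * ((n.factorial : ℝ) * (((n : ℝ) + 1) * ((n : ℝ) + 1 - k) / (k + 1))) := by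
    refine h4.trans (le_of_eq ?_)
    rw [mul_div_assoc', mul_div_assoc', eq_div_iff hk1.ne']
    calc (n.factorial : ℝ) * (((n : ℝ) + 1 - k) * ((n + 1).choose (k + 1) : ℝ)) * (k + 1)
        = (n.factorial : ℝ) * ((n : ℝ) + 1 - k) * (((k : ℝ) + 1) * ((n + 1).choose (k + 1) : ℝ)) := by
          ring
      _ = _ := by rw [h3]; ring
  exact le_of_mul_le_mul_left h6 hc

end Pool.Agent.BoolDim
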