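import Pool.Agent.BoolDim.Defs

/-!
# BD-7: abstract sum over boxes
-/

open Finset

namespace Pool.Agent.BoolDim

namespace Box

variable {ι B : Type} [Fintype ι] [DecidableEq ι] [Fintype B] [DecidableEq B] {m : ℕ}

/-- Elements crossed by the box `u`. -/
def hit (β : ι → Fin m → Option B) (u : ι → Fin m) : Finset B :=
  univ.filter (fun b => ∃ i, β i (u i) = some b)

/-- The elements crossed in coordinate `i` by some box. -/
def Bs (β : ι → Fin m → Option B) (i : ι) : Finset B :=
  univ.filter (fun b => ∃ x, β i x = some b)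

/-- The number of coordinates outside `I` whose set contains `b`. -/
def wt (β : ι → Fin m → Option B) (I : Finset ι) (b : B) : ℕ :=
  (Iᶜ.filter (fun i => b ∈ Bs β i)).card

/-- The cut. -/
def cut (β : ι → Fin m → Option B) (I : Finset ι) : ℕ :=
  ∑ i ∈ I, ∑ i' ∈ Iᶜ, (Bs β i ∩ Bs β i').card

theorem cut_eq (β : ι → Fin m → Option B) (I : Finset ι) :
    cut β I = ∑ i ∈ I, ∑ b ∈ Bs β i, wt β I b := by
  unfold cut wt
  refine Finset.sum_congr rfl (fun i _ => ?_)
  have h1 : ∀ i', (Bs β i ∩ Bs β i').card = ∑ b ∈ Bs β i, if b ∈ Bs β i' then 1 else 0 := by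
    intro i'
    rw [← Finset.card_filter, Finset.filter_mem_eq_inter]
  simp only [h1, Finset.card_filter]
  rw [Finset.sum_comm]

/-- Number of boxes `x` of coordinate `i` whose crossed element lies in `H`. -/
theorem card_filter_eq (β : ι → Fin m → Option B)
    (hinj : ∀ i x y b, β i x = some b → β i y = some b → x = y) (i : ι) (H : Finset B) :
    (univ.filter (fun x : Fin m => ∃ b ∈ H, β i x = some b)).card = (Bs β i ∩ H).card := by
  symm
  refine Finset.card_bij (fun b hb => ?_) ?_ ?_ ?_
  · exact (Finset.mem_filter.mp (Finset.mem_inter.mp hb).1).2.choose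
  · intro b hb
    simp only [Finset.mem_filter, Finset.mem_univ, true_and]
    exact ⟨b, (Finset.mem_inter.mp hb).2,
      (Finset.mem_filter.mp (Finset.mem_inter.mp hb).1).2.choose_spec⟩
  · intro b hb c hc h
    have h1 := (Finset.mem_filter.mp (Finset.mem_inter.mp hb).1).2.choose_spec
    have h2 := (Finset.mem_filter.mp (Finset.mem_inter.mp hc).1).2.choose_spec
    rw [h, h2] at h1
    exact (Option.some.inj h1).symm
  · intro x hx
    simp only [Finset.mem_filter, Finset.mem_univ, true_and] at hx
    obtain ⟨b, hbH, hb⟩ := hx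
    have hmem : b ∈ Bs β i ∩ H := by
      simp only [Finset.mem_inter, hbH, and_true, Bs, Finset.mem_filter, Finset.mem_univ, true_and]
      exact ⟨x, hb⟩
    refine ⟨b, hmem, ?_⟩
    exact hinj i _ _ b (Finset.mem_filter.mp (Finset.mem_inter.mp hmem).1).2.choose_spec hb

/-- weight of an optional element -/
def owt (β : ι → Fin m → Option B) (I : Finset ι) : Option B → ℕ
  | none => 0
  | some b => wt β I b

/-- sum over boxes of the weight of the crossed element -/
theorem sum_owt (β : ι → Fin m → Option B)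
    (hinj : ∀ i x y b, β i x = some b → β i y = some b → x = y) (I : Finset ι) (i : ι) :
    ∑ x : Fin m, owt β I (β i x) = ∑ b ∈ Bs β i, wt β I b := by
  classical
  have h : ∀ x : Fin m, owt β I (β i x) = ∑ b ∈ Bs β i, if β i x = some b then wt β I b else 0 := by
    intro x
    rcases hx : β i x with _ | b
    · simp [owt]
    · have hb : b ∈ Bs β i := by simp only [Bs, Finset.mem_filter, Finset.mem_univ, true_and]; exact ⟨x, hx⟩
      simp only [owt, Option.some.injEq]
      rw [Finset.sum_ite_eq]
      simp [hb]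
  simp only [h]
  rw [Finset.sum_comm]
  refine Finset.sum_congr rfl (fun b hb => ?_)
  obtain ⟨x, hx⟩ := (Finset.mem_filter.mp hb).2
  rw [Finset.sum_eq_single x]
  · simp [hx]
  · intro y _ hy
    rw [if_neg]
    intro hy'
    exact hy (hinj i y x b hy' hx)
  · intro h; exact absurd (Finset.mem_univ x) h

/-- Main bound of the sum over boxes. -/
theorem sum_le (β : ι → Fin m → Option B)
    (hinj : ∀ i x y b, β i x = some b → β i y = some b → x = y)
    (hm : 0 < m) (hι : Fintype.card ι ≤ m) (I : Finset ι) :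
    ∑ u : ι → Fin m, (2 : ℝ) ^ (hit β u).card ≤
      (2 * (m : ℝ)) ^ (Fintype.card ι) * Real.exp (-((cut β I : ℝ) / (4 * (m : ℝ) ^ 2))) := by
  classical
  have hm' : (0 : ℝ) < m := by exact_mod_cast hm
  -- split the coordinates
  rw [← Equiv.sum_comp (Equiv.piEquivPiSubtypeProd (fun i => i ∈ I) (fun _ => Fin m)).symm,
    Fintype.sum_prod_type]
  -- elements hit by coordinates in `I`
  set HI : ({i // i ∈ I} → Fin m) → Finset B :=
    fun v => univ.filter (fun b => ∃ i : {i // i ∈ I}, β i (v i) = some b) with hHI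
  set c : ({i // i ∈ I} → Fin m) → ({i // ¬ i ∈ I}) → Fin m → ℝ :=
    fun v i x => if (∃ b ∈ HI v, β i x = some b) then 1 else 2 with hc
  have hstep1 : ∀ (v : {i // i ∈ I} → Fin m) (w : {i // ¬ i ∈ I} → Fin m),
      (2 : ℝ) ^ (hit β ((Equiv.piEquivPiSubtypeProd (fun i => i ∈ I) (fun _ => Fin m)).symm
        (v, w))).card ≤ 2 ^ (HI v).card * ∏ i, c v i (w i) := by
    intro v w
    set u := (Equiv.piEquivPiSubtypeProd (fun i => i ∈ I) (fun _ => Fin m)).symm (v, w) with hu
    have hu1 : ∀ (i : ι) (hi : i ∈ I), u i = v ⟨i, hi⟩ := by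
      intro i hi; simp [hu, Equiv.piEquivPiSubtypeProd, hi]
    have hu2 : ∀ (i : ι) (hi : ¬ i ∈ I), u i = w ⟨i, hi⟩ := by
      intro i hi; simp [hu, Equiv.piEquivPiSubtypeProd, hi]
    -- the new coordinates
    set T : Finset {i // ¬ i ∈ I} := univ.filter (fun i => ¬ ∃ b ∈ HI v, β i (w i) = some b) with hT
    have hprod : ∏ i, c v i (w i) = 2 ^ T.card := by
      rw [hT, Finset.card_filter, ← Finset.prod_pow_eq_pow_sum]
      refine Finset.prod_congr rfl (fun i _ => ?_)
      by_cases h : ∃ b ∈ HI v, β i (w i) = some b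
      · simp [hc, h]
      · simp [hc, h]
    rw [hprod, ← pow_add]
    refine pow_le_pow_right₀ (by norm_num) ?_
    have hsub : hit β u ⊆ HI v ∪ (T.biUnion (fun i => (β i (w i)).toFinset)) := by
      intro b hb
      obtain ⟨i, hi⟩ := (Finset.mem_filter.mp hb).2
      by_cases hiI : i ∈ I
      · rw [hu1 i hiI] at hi
        refine Finset.mem_union_left _ ?_
        simp only [hHI, Finset.mem_filter, Finset.mem_univ, true_and]
        exact ⟨⟨i, hiI⟩, hi⟩
      · rw [hu2 i hiI] at hi
        by_cases hbH : b ∈ HI v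
        · exact Finset.mem_union_left _ hbH
        · refine Finset.mem_union_right _ ?_
          simp only [Finset.mem_biUnion, Option.mem_toFinset, Option.mem_def]
          refine ⟨⟨i, hiI⟩, ?_, hi⟩
          simp only [hT, Finset.mem_filter, Finset.mem_univ, true_and, not_exists, not_and]
          intro b' hb' hb''
          rw [hi] at hb''
          exact hbH ((Option.some.inj hb'') ▸ hb')
    refine (Finset.card_le_card hsub).trans ((Finset.card_union_le _ _).trans ?_)
    refine Nat.add_le_add_left ?_ _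
    refine (Finset.card_biUnion_le).trans ?_
    calc ∑ i ∈ T, ((β i (w i)).toFinset).card ≤ ∑ i ∈ T, 1 := by
          refine Finset.sum_le_sum (fun i _ => ?_)
          rcases β i (w i) with _ | b <;> simp
      _ = T.card := by simp
  have hstep2 : ∀ (v : {i // i ∈ I} → Fin m),
      ∑ w : {i // ¬ i ∈ I} → Fin m, (2 : ℝ) ^ (hit β
        ((Equiv.piEquivPiSubtypeProd (fun i => i ∈ I) (fun _ => Fin m)).symm (v, w))).card ≤
      2 ^ (HI v).card * ((2 * (m : ℝ)) ^ (Iᶜ.card) *
        Real.exp (-(((∑ b ∈ HI v, wt β I b : ℕ) : ℝ) / (2 * m)))) := by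
    intro v
    calc _ ≤ ∑ w : {i // ¬ i ∈ I} → Fin m, 2 ^ (HI v).card * ∏ i, c v i (w i) :=
          Finset.sum_le_sum (fun w _ => hstep1 v w)
      _ = 2 ^ (HI v).card * ∏ i, ∑ x, c v i x := by
          rw [← Finset.mul_sum, Finset.prod_univ_sum, Fintype.piFinset_univ]
      _ ≤ _ := by
          refine mul_le_mul_of_nonneg_left ?_ (by positivity)
          have hfac : ∀ i : {i // ¬ i ∈ I}, ∑ x, c v i x ≤
              (2 * (m : ℝ)) * Real.exp (-(((Bs β i ∩ HI v).card : ℝ) / (2 * m))) := by
            intro i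
            have h1 : ∑ x, c v i x = 2 * m - (Bs β i ∩ HI v).card := by
              rw [← card_filter_eq β hinj i (HI v), Finset.card_filter]
              push_cast
              have : ∀ x : Fin m, c v i x = 2 - (if (∃ b ∈ HI v, β i x = some b) then (1:ℝ) else 0) := by
                intro x
                by_cases h : ∃ b ∈ HI v, β i x = some b
                · simp only [hc, if_pos h]; norm_num
                · simp only [hc, if_neg h]; norm_num
              simp only [this, Finset.sum_sub_distrib, Finset.sum_const, Finset.card_univ,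
                Fintype.card_fin, nsmul_eq_mul]
              ring
            rw [h1]
            have h2 := Real.add_one_le_exp (-(((Bs β i ∩ HI v).card : ℝ) / (2 * m)))
            calc 2 * (m : ℝ) - (Bs β i ∩ HI v).card
                = (2 * (m : ℝ)) * (-(((Bs β i ∩ HI v).card : ℝ) / (2 * m)) + 1) := by
                  field_simp; ring
              _ ≤ _ := mul_le_mul_of_nonneg_left h2 (by positivity)
          have hnn : ∀ i ∈ (univ : Finset {i // ¬ i ∈ I}), 0 ≤ ∑ x, c v i x := by
            intro i _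
            refine Finset.sum_nonneg (fun x _ => ?_)
            simp only [hc]; split_ifs <;> norm_num
          refine (Finset.prod_le_prod hnn (fun i _ => hfac i)).trans (le_of_eq ?_)
          rw [Finset.prod_mul_distrib, Finset.prod_const, ← Real.exp_sum]
          have hcard : (univ : Finset {i // ¬ i ∈ I}).card = Iᶜ.card := by
            rw [Finset.card_univ, Fintype.card_subtype]
            congr 1
            ext i; simp
          rw [hcard]
          congr 2
          rw [Finset.sum_neg_distrib, ← Finset.sum_div]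
          congr 2
          have : ((∑ b ∈ HI v, wt β I b : ℕ)) = ∑ i : {i // ¬ i ∈ I}, (Bs β i ∩ HI v).card := by
            have e1 : ∀ i : ι, (Bs β i ∩ HI v).card = ∑ b ∈ HI v, if b ∈ Bs β i then 1 else 0 := by
              intro i
              rw [← Finset.card_filter, Finset.filter_mem_eq_inter, Finset.inter_comm]
            simp only [e1, wt, Finset.card_filter]
            rw [Finset.sum_comm]
            rw [← Finset.sum_coe_sort]
            refine Fintype.sum_equiv (Equiv.subtypeEquivRight (fun i => by simp)) _ _ (fun i => rfl)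
          exact_mod_cast this.symm
  have hF : ∀ o : Option B, 0 ≤ Real.log 2 - (owt β I o : ℝ) / (2 * m) := by
    intro o
    have h1 : (owt β I o : ℝ) ≤ m := by
      have : owt β I o ≤ m := by
        rcases o with _ | b
        · simp [owt]
        · refine le_trans (Finset.card_filter_le _ _) (le_trans (Finset.card_le_univ _) hι)
      exact_mod_cast this
    have h2 : (owt β I o : ℝ) / (2 * m) ≤ 1 / 2 := by
      rw [div_le_div_iff₀ (by positivity) (by norm_num)]; linarith
    have := Real.log_two_gt_d9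
    linarith
  have hstep3 : ∀ (v : {i // i ∈ I} → Fin m),
      (2 : ℝ) ^ (HI v).card * Real.exp (-(((∑ b ∈ HI v, wt β I b : ℕ) : ℝ) / (2 * m))) ≤
      ∏ i : {i // i ∈ I}, (2 * Real.exp (-((owt β I (β i (v i)) : ℝ) / (2 * m)))) := by
    intro v
    have hL : (2 : ℝ) ^ (HI v).card * Real.exp (-(((∑ b ∈ HI v, wt β I b : ℕ) : ℝ) / (2 * m))) =
        Real.exp (∑ b ∈ HI v, (Real.log 2 - (owt β I (some b) : ℝ) / (2 * m))) := by
      rw [Finset.sum_sub_distrib, Finset.sum_const, nsmul_eq_mul, ← Finset.sum_div, sub_eq_add_neg,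
        Real.exp_add, mul_comm ((HI v).card : ℝ), Real.exp_mul, Real.exp_log (by norm_num)]
      push_cast
      simp [owt]
    have hR : ∏ i : {i // i ∈ I}, (2 * Real.exp (-((owt β I (β i (v i)) : ℝ) / (2 * m)))) =
        Real.exp (∑ i : {i // i ∈ I}, (Real.log 2 - (owt β I (β i (v i)) : ℝ) / (2 * m))) := by
      rw [Real.exp_sum]
      refine Finset.prod_congr rfl (fun i _ => ?_)
      rw [sub_eq_add_neg, Real.exp_add, Real.exp_log (by norm_num)]
    rw [hL, hR]
    refine Real.exp_le_exp.mpr ?_
    have h1 : ∑ o ∈ (univ.image (fun i : {i // i ∈ I} => β i (v i))),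
        (Real.log 2 - (owt β I o : ℝ) / (2 * m)) ≤
        ∑ i : {i // i ∈ I}, (Real.log 2 - (owt β I (β i (v i)) : ℝ) / (2 * m)) :=
      Finset.sum_image_le_of_nonneg (s := (univ : Finset {i // i ∈ I}))
        (g := fun i : {i // i ∈ I} => β i (v i))
        (f := fun o => (Real.log 2 - (owt β I o : ℝ) / (2 * m))) (fun o _ => hF o)
    refine le_trans ?_ h1
    have h2 : ∑ b ∈ HI v, (Real.log 2 - (owt β I (some b) : ℝ) / (2 * m)) =
        ∑ o ∈ (HI v).map Function.Embedding.some, (Real.log 2 - (owt β I o : ℝ) / (2 * m)) := by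
      rw [Finset.sum_map]; rfl
    rw [h2]
    refine Finset.sum_le_sum_of_subset_of_nonneg ?_ (fun o _ _ => hF o)
    intro o ho
    obtain ⟨b, hb, rfl⟩ := Finset.mem_map.mp ho
    obtain ⟨i, hi⟩ := (Finset.mem_filter.mp hb).2
    exact Finset.mem_image.mpr ⟨i, Finset.mem_univ _, hi⟩
  have hstep4 : ∑ v : {i // i ∈ I} → Fin m,
      ∏ i : {i // i ∈ I}, (2 * Real.exp (-((owt β I (β i (v i)) : ℝ) / (2 * m)))) ≤
      (2 * (m : ℝ)) ^ I.card * Real.exp (-((cut β I : ℝ) / (4 * (m : ℝ) ^ 2))) := by
    have e := Finset.prod_univ_sum (fun _ : {i // i ∈ I} => (univ : Finset (Fin m)))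
      (fun i x => (2 * Real.exp (-((owt β I (β i x) : ℝ) / (2 * m)))))
    rw [Fintype.piFinset_univ] at e
    rw [← e]
    have hfac : ∀ i : {i // i ∈ I}, ∑ x : Fin m, (2 * Real.exp (-((owt β I (β i x) : ℝ) / (2 * m)))) ≤
        2 * m * Real.exp (-(((∑ b ∈ Bs β i, wt β I b : ℕ) : ℝ) / (4 * (m : ℝ) ^ 2))) := by
      intro i
      have h1 : ∀ x : Fin m, (2 * Real.exp (-((owt β I (β i x) : ℝ) / (2 * m)))) ≤
          2 * (1 - (owt β I (β i x) : ℝ) / (4 * m)) := by
        intro x
        refine mul_le_mul_of_nonneg_left ?_ (by norm_num)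
        have hx : (owt β I (β i x) : ℝ) ≤ m := by
          have : owt β I (β i x) ≤ m := by
            rcases β i x with _ | b
            · simp [owt]
            · refine le_trans (Finset.card_filter_le _ _) (le_trans (Finset.card_le_univ _) hι)
          exact_mod_cast this
        set y := (owt β I (β i x) : ℝ) / (2 * m) with hy
        have hy0 : 0 ≤ y := by positivity
        have hy1 : y ≤ 1 := by
          rw [hy, div_le_one (by positivity)]; linarith
        have e4 : (owt β I (β i x) : ℝ) / (4 * m) = y / 2 := by rw [hy]; field_simp; ring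
        rw [e4]
        -- exp(-y) ≤ 1/(1+y) ≤ 1 - y/2
        have h3 : Real.exp (-y) ≤ 1 / (1 + y) := by
          rw [Real.exp_neg, ← one_div]
          exact one_div_le_one_div_of_le (by positivity) (by have := Real.add_one_le_exp y; linarith)
        refine h3.trans ?_
        rw [div_le_iff₀ (by positivity)]
        nlinarith
      calc _ ≤ ∑ x : Fin m, 2 * (1 - (owt β I (β i x) : ℝ) / (4 * m)) :=
            Finset.sum_le_sum (fun x _ => h1 x)
        _ = 2 * m * (-(((∑ b ∈ Bs β i, wt β I b : ℕ) : ℝ) / (4 * (m : ℝ) ^ 2)) + 1) := by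
            rw [← sum_owt β hinj I i, ← Finset.mul_sum, Finset.sum_sub_distrib, Finset.sum_const,
              Finset.card_univ, Fintype.card_fin, nsmul_eq_mul, ← Finset.sum_div]
            push_cast
            field_simp
            ring
        _ ≤ _ := mul_le_mul_of_nonneg_left (Real.add_one_le_exp _) (by positivity)
    refine (Finset.prod_le_prod (fun i _ => Finset.sum_nonneg (fun x _ => by positivity))
      (fun i _ => hfac i)).trans (le_of_eq ?_)
    rw [Finset.prod_mul_distrib, Finset.prod_const, ← Real.exp_sum, Finset.card_univ,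
      Fintype.card_coe]
    congr 2
    rw [Finset.sum_neg_distrib, ← Finset.sum_div, cut_eq]
    congr 2
    rw [Finset.sum_coe_sort I (fun i => (((∑ b ∈ Bs β i, wt β I b : ℕ)) : ℝ))]
    push_cast
    rfl
  calc _ ≤ ∑ v : {i // i ∈ I} → Fin m, (2 : ℝ) ^ (HI v).card * ((2 * (m : ℝ)) ^ (Iᶜ.card) *
        Real.exp (-(((∑ b ∈ HI v, wt β I b : ℕ) : ℝ) / (2 * m)))) :=
        Finset.sum_le_sum (fun v _ => hstep2 v)
    _ = (2 * (m : ℝ)) ^ (Iᶜ.card) * ∑ v : {i // i ∈ I} → Fin m, (2 : ℝ) ^ (HI v).card *
        Real.exp (-(((∑ b ∈ HI v, wt β I b : ℕ) : ℝ) / (2 * m))) := by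
        rw [Finset.mul_sum]
        refine Finset.sum_congr rfl (fun v _ => by ring)
    _ ≤ (2 * (m : ℝ)) ^ (Iᶜ.card) * ((2 * (m : ℝ)) ^ I.card *
          Real.exp (-((cut β I : ℝ) / (4 * (m : ℝ) ^ 2)))) := by
        refine mul_le_mul_of_nonneg_left ?_ (by positivity)
        exact (Finset.sum_le_sum (fun v _ => hstep3 v)).trans hstep4
    _ = _ := by
        rw [← mul_assoc, ← pow_add, add_comm, Finset.card_add_card_compl]

end Box

end Pool.Agent.BoolDim
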